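import Mathlib

/-! Basic definitions on ET0L systems (letters are natural numbers) and simple lemmas. -/

namespace Pool.Agent.R938.EL

/-- `Rewrites h x y`: the word `y` arises from the word `x` by replacing, simultaneously and
independently, every occurrence of a letter `c` by some word of `h c`. -/
def Rewrites {α β : Type} (h : α → Finset (List β)) : List α → List β → Prop
  | [], y => y = []
  | c :: x, y => ∃ v ∈ h c, ∃ z, Rewrites h x z ∧ y = v ++ z

/-- An ET0L system whose letters are natural numbers. -/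
structure ET0L where
  /-- the alphabet -/
  letters : Finset ℕ
  /-- the tables, each a finite substitution on the alphabet -/
  tables : Set (ℕ → Finset (List ℕ))
  tables_finite : tables.Finite
  tables_nonempty : tables.Nonempty
  image_nonempty : ∀ h ∈ tables, ∀ c ∈ letters, (h c).Nonempty
  image_closed : ∀ h ∈ tables, ∀ c ∈ letters, ∀ v ∈ h c, ∀ d ∈ v, d ∈ letters
  /-- the start word -/
  start : List ℕ
  start_ne : start ≠ []
  start_mem : ∀ d ∈ start, d ∈ letters
  /-- the terminal alphabet -/
  terminals : Finset ℕ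
  terminals_sub : terminals ⊆ letters

/-- One derivation step of the system: one of its tables is applied to the word. -/
def ET0L.Step (G : ET0L) (x y : List ℕ) : Prop := ∃ h ∈ G.tables, Rewrites h x y

/-- The language generated by the system. -/
def ET0L.lang (G : ET0L) : Set (List ℕ) :=
  {w | (∀ d ∈ w, d ∈ G.terminals) ∧ Relation.ReflTransGen G.Step G.start w}

/-- The system is `k`-restricted: in every table at most `k` letters of the alphabet are not
rewritten to themselves only. -/
def ET0L.Restricted (k : ℕ) (G : ET0L) : Prop :=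
  ∀ h ∈ G.tables, (G.letters.filter (fun c => h c ≠ {[c]})).card ≤ k

/-- The family of the languages generated by `k`-restricted ET0L systems. -/
def Family (k : ℕ) : Set (Set (List ℕ)) := {L | ∃ G : ET0L, G.Restricted k ∧ G.lang = L}

section Basic

variable {α β γ : Type}

@[simp] theorem rewrites_nil (h : α → Finset (List β)) (y : List β) :
    Rewrites h [] y ↔ y = [] := Iff.rfl

theorem rewrites_cons (h : α → Finset (List β)) (c : α) (x : List α) (y : List β) :
    Rewrites h (c :: x) y ↔ ∃ v ∈ h c, ∃ z, Rewrites h x z ∧ y = v ++ z := Iff.rfl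

theorem rewrites_append (h : α → Finset (List β)) (x₁ x₂ : List α) (y : List β) :
    Rewrites h (x₁ ++ x₂) y ↔
      ∃ y₁ y₂, Rewrites h x₁ y₁ ∧ Rewrites h x₂ y₂ ∧ y = y₁ ++ y₂ := by
  induction x₁ generalizing y with
  | nil => simp
  | cons c x ih =>
    simp only [List.cons_append, rewrites_cons]
    constructor
    · rintro ⟨v, hv, z, hz, rfl⟩
      obtain ⟨y₁, y₂, h1, h2, rfl⟩ := (ih z).1 hz
      exact ⟨v ++ y₁, y₂, ⟨v, hv, y₁, h1, rfl⟩, h2, by simp⟩
    · rintro ⟨y₁, y₂, ⟨v, hv, z, hz, rfl⟩, h2, rfl⟩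
      exact ⟨v, hv, z ++ y₂, (ih _).2 ⟨z, y₂, hz, h2, rfl⟩, by simp⟩

theorem rewrites_singleton (h : α → Finset (List β)) (c : α) (y : List β) :
    Rewrites h [c] y ↔ y ∈ h c := by
  simp [rewrites_cons]

/-- If every letter of the word is rewritten only to itself, nothing changes. -/
theorem rewrites_self (h : α → Finset (List α)) (x y : List α)
    (hx : ∀ c ∈ x, h c = {[c]}) : Rewrites h x y ↔ y = x := by
  induction x generalizing y with
  | nil => simp
  | cons c x ih =>
    have hc : h c = {[c]} := hx c (by simp)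
    have hx' : ∀ d ∈ x, h d = {[d]} := fun d hd => hx d (by simp [hd])
    simp only [rewrites_cons, hc, Finset.mem_singleton]
    constructor
    · rintro ⟨v, rfl, z, hz, rfl⟩
      rw [(ih z hx').1 hz]; rfl
    · rintro rfl
      exact ⟨[c], rfl, x, (ih x hx').2 rfl, rfl⟩

/-- Composition: rewriting by `h` and then by `g`, letter by letter. -/
theorem rewrites_mono (h : α → Finset (List β)) (g : β → Finset (List γ))
    (f : α → Finset (List γ)) (s : List α) (s' : List β) (w : List γ)
    (H : ∀ a ∈ s, ∀ v ∈ h a, ∀ w, Rewrites g v w → w ∈ f a)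
    (h1 : Rewrites h s s') (h2 : Rewrites g s' w) : Rewrites f s w := by
  induction s generalizing s' w with
  | nil =>
    have : s' = [] := h1
    subst this
    exact h2
  | cons a s ih =>
    obtain ⟨v, hv, z, hz, rfl⟩ := h1
    obtain ⟨y₁, y₂, h3, h4, rfl⟩ := (rewrites_append g v z w).1 h2
    exact ⟨y₁, H a (by simp) v hv y₁ h3, y₂,
      ih z y₂ (fun b hb => H b (by simp [hb])) hz h4, rfl⟩

/-- A letter of the result comes from some letter of the word. -/
theorem mem_of_rewrites (h : α → Finset (List β)) (s : List α) (s' : List β) (b : β)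
    (h1 : Rewrites h s s') (hb : b ∈ s') : ∃ a ∈ s, ∃ v ∈ h a, b ∈ v := by
  induction s generalizing s' with
  | nil =>
    have : s' = [] := h1
    subst this
    simp at hb
  | cons a s ih =>
    obtain ⟨v, hv, z, hz, rfl⟩ := h1
    rcases List.mem_append.1 hb with h2 | h2
    · exact ⟨a, by simp, v, hv, h2⟩
    · obtain ⟨a', ha', v', hv', h3⟩ := ih z hz h2
      exact ⟨a', by simp [ha'], v', hv', h3⟩

/-- Every letter of the word contributes one of its images. -/
theorem exists_image_of_rewrites (h : α → Finset (List β)) (s : List α) (s' : List β) (a : α)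
    (h1 : Rewrites h s s') (ha : a ∈ s) : ∃ v ∈ h a, ∀ b ∈ v, b ∈ s' := by
  induction s generalizing s' with
  | nil => simp at ha
  | cons c s ih =>
    obtain ⟨v, hv, z, hz, rfl⟩ := h1
    rcases List.mem_cons.1 ha with rfl | h2
    · exact ⟨v, hv, fun b hb => by simp [hb]⟩
    · obtain ⟨v', hv', h3⟩ := ih z hz h2
      exact ⟨v', hv', fun b hb => by simp [h3 b hb]⟩

/-- Applying a list of tables one after the other. -/
def Runs : List (α → Finset (List α)) → List α → List α → Prop
  | [], x, y => y = x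
  | h :: τ, x, y => ∃ z, Rewrites h x z ∧ Runs τ z y

@[simp] theorem runs_nil (x y : List α) : Runs [] x y ↔ y = x := Iff.rfl

theorem runs_cons (h : α → Finset (List α)) (τ : List (α → Finset (List α))) (x y : List α) :
    Runs (h :: τ) x y ↔ ∃ z, Rewrites h x z ∧ Runs τ z y := Iff.rfl

theorem runs_append (τ₁ τ₂ : List (α → Finset (List α))) (x y : List α) :
    Runs (τ₁ ++ τ₂) x y ↔ ∃ z, Runs τ₁ x z ∧ Runs τ₂ z y := by
  induction τ₁ generalizing x with
  | nil => simp
  | cons h τ ih =>
    simp only [List.cons_append, runs_cons, ih]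
    constructor
    · rintro ⟨z, h1, z', h2, h3⟩
      exact ⟨z', ⟨z, h1, h2⟩, h3⟩
    · rintro ⟨z', ⟨z, h1, h2⟩, h3⟩
      exact ⟨z, h1, z', h2, h3⟩

theorem runs_concat (τ : List (α → Finset (List α))) {x₁ x₂ y₁ y₂ : List α}
    (h1 : Runs τ x₁ y₁) (h2 : Runs τ x₂ y₂) : Runs τ (x₁ ++ x₂) (y₁ ++ y₂) := by
  induction τ generalizing x₁ x₂ with
  | nil =>
    have e1 : y₁ = x₁ := h1
    have e2 : y₂ = x₂ := h2
    subst e1 e2
    rfl
  | cons h τ ih =>
    obtain ⟨z₁, a1, a2⟩ := h1
    obtain ⟨z₂, b1, b2⟩ := h2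
    exact ⟨z₁ ++ z₂, (rewrites_append _ _ _ _).2 ⟨z₁, z₂, a1, b1, rfl⟩, ih a2 b2⟩

theorem runs_nil_word (τ : List (α → Finset (List α))) (y : List α) :
    Runs τ [] y ↔ y = [] := by
  induction τ with
  | nil => simp
  | cons h τ ih => simp [runs_cons, ih]

theorem runs_split (τ : List (α → Finset (List α))) (x₁ x₂ y : List α) :
    Runs τ (x₁ ++ x₂) y ↔ ∃ y₁ y₂, Runs τ x₁ y₁ ∧ Runs τ x₂ y₂ ∧ y = y₁ ++ y₂ := by
  constructor
  · intro h
    induction τ generalizing x₁ x₂ with
    | nil =>
      have : y = x₁ ++ x₂ := h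
      exact ⟨x₁, x₂, rfl, rfl, this⟩
    | cons t τ ih =>
      obtain ⟨z, h1, h2⟩ := h
      obtain ⟨z₁, z₂, h3, h4, rfl⟩ := (rewrites_append _ _ _ _).1 h1
      obtain ⟨y₁, y₂, h5, h6, rfl⟩ := ih z₁ z₂ h2
      exact ⟨y₁, y₂, ⟨z₁, h3, h5⟩, ⟨z₂, h4, h6⟩, rfl⟩
  · rintro ⟨y₁, y₂, h1, h2, rfl⟩
    exact runs_concat τ h1 h2

/-- If all letters of the word are left unchanged by all tables, nothing changes. -/
theorem runs_self (τ : List (α → Finset (List α))) (x : List α)
    (H : ∀ h ∈ τ, ∀ c ∈ x, h c = {[c]}) : Runs τ x x := by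
  induction τ with
  | nil => rfl
  | cons h τ ih =>
    exact ⟨x, (rewrites_self h x x (fun c hc => H h (by simp) c hc)).2 rfl,
      ih (fun g hg => H g (by simp [hg]))⟩

/-- A run with tables from a set gives a derivation. -/
theorem reflTransGen_of_runs (T : Set (α → Finset (List α)))
    (τ : List (α → Finset (List α))) (x y : List α) (H : ∀ h ∈ τ, h ∈ T) (h : Runs τ x y) :
    Relation.ReflTransGen (fun a b => ∃ h ∈ T, Rewrites h a b) x y := by
  induction τ generalizing x with
  | nil =>
    have : y = x := h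
    subst this
    exact Relation.ReflTransGen.refl
  | cons t τ ih =>
    obtain ⟨z, h1, h2⟩ := h
    exact Relation.ReflTransGen.head ⟨t, H t (by simp), h1⟩
      (ih z (fun g hg => H g (by simp [hg])) h2)

theorem runs_of_reflTransGen (T : Set (α → Finset (List α))) (x y : List α)
    (h : Relation.ReflTransGen (fun a b => ∃ h ∈ T, Rewrites h a b) x y) :
    ∃ τ : List (α → Finset (List α)), (∀ h ∈ τ, h ∈ T) ∧ Runs τ x y := by
  induction h using Relation.ReflTransGen.head_induction_on with
  | refl => exact ⟨[], by simp, rfl⟩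
  | head h1 _ ih =>
    obtain ⟨t, ht, h2⟩ := h1
    obtain ⟨τ, h3, h4⟩ := ih
    exact ⟨t :: τ, by
      intro g hg
      rcases List.mem_cons.1 hg with rfl | hg
      · exact ht
      · exact h3 g hg, _, h2, h4⟩

end Basic

end Pool.Agent.R938.EL
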