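import Pool.Agent.R938.EL.Sound

/-! Completeness of the construction. -/

namespace Pool.Agent.R938.EL

open Relation Ltr

section Complete

variable {G : ET0L} {m : ℕ} {ht : ℕ → ℕ → Finset (List ℕ)}

/-- a single letter not touched by a list of tables -/
theorem runs_letter (τ : List (Ltr G.terminals → Finset (List (Ltr G.terminals))))
    (z : Ltr G.terminals) (H : ∀ h ∈ τ, h z = {[z]}) : Runs τ [z] [z] :=
  runs_self τ [z] (by
    intro h hh c hc
    rw [List.mem_singleton] at hc
    subst hc
    exact H h hh)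

/-- the tables deleting the watchers of all phases except `q` -/
def delW (T : Finset ℕ) (m q : ℕ) : List (Ltr T → Finset (List (Ltr T))) :=
  ((List.range (m + 2)).filter (fun r => r ≠ q)).map (fun r => tab (Ltr.w r) {[]})

/-- the tables deleting the checkers -/
def delX (T : Finset ℕ) (l : List ℕ) : List (Ltr T → Finset (List (Ltr T))) :=
  l.map (fun i => tab (Ltr.x i) {[]})

def delY (T : Finset ℕ) (l : List ℕ) : List (Ltr T → Finset (List (Ltr T))) :=
  l.map (fun i => tab (Ltr.y i) {[]})

/-- Deleting a list of letters, one after the other. -/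
theorem runs_del_aux {T : Finset ℕ} (f : ℕ → Ltr T) (hf : Function.Injective f)
    (hm : ∀ i j, f i ≠ mate (f j)) (l : List ℕ) :
    ∀ l' : List ℕ, (∀ i ∈ l', i ∈ l) →
      Runs (l.map (fun i => tab (f i) {[]})) (l'.map f) [] := by
  induction l with
  | nil =>
    intro l' h
    have : l' = [] := List.eq_nil_iff_forall_not_mem.2 (fun a ha => by simpa using h a ha)
    subst this
    rfl
  | cons a l ih =>
    intro l' h
    refine ⟨(l'.filter (fun i => i ≠ a)).map f, ?_, ih _ ?_⟩
    · clear h
      induction l' with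
      | nil => rfl
      | cons b l' ih' =>
        by_cases hb : b = a
        · subst hb
          refine ⟨[], ?_, _, ih', ?_⟩
          · show [] ∈ tab (f b) {[]} (f b)
            rw [tab_self]; simp
          · simp
        · refine ⟨[f b], ?_, _, ih', ?_⟩
          · show [f b] ∈ tab (f a) {[]} (f b)
            rw [tab_other (fun h => hb (hf h)) (hm b a)]
            simp
          · simp [hb]
    · intro i hi
      simp only [ne_eq, List.mem_filter, decide_eq_true_eq] at hi
      rcases List.mem_cons.1 (h i hi.1) with h1 | h1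
      · exact absurd h1 hi.2
      · exact h1

theorem runs_ws (T : Finset ℕ) (q : ℕ) : Runs (delW T m q) (ws m T q) [] :=
  runs_del_aux Ltr.w (fun a b h => by simpa using h) (by simp [mate]) _ _ (fun i hi => hi)

theorem runs_xs (T S : Finset ℕ) : Runs (delX T S.toList) (xs T S) [] :=
  runs_del_aux Ltr.x (fun a b h => by simpa using h) (by simp [mate]) _ _ (fun i hi => hi)

theorem runs_ys (T S : Finset ℕ) : Runs (delY T S.toList) (ys T S) [] :=
  runs_del_aux Ltr.y (fun a b h => by simpa using h) (by simp [mate]) _ _ (fun i hi => hi)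

/-- Letters other than watchers and phase letters are not touched when deleting watchers. -/
theorem delW_self (T : Finset ℕ) (q : ℕ) (z : Ltr T) (h1 : ∀ r, z ≠ Ltr.w r)
    (h2 : ∀ r, r ≠ q → z ≠ Ltr.K r) : ∀ h ∈ delW T m q, h z = {[z]} := by
  intro h hh
  obtain ⟨r, hr, rfl⟩ := List.mem_map.1 hh
  simp only [ne_eq, List.mem_filter, decide_eq_true_eq] at hr
  exact tab_other (h1 r) (h2 r hr.2) _

theorem delX_self (T : Finset ℕ) (l : List ℕ) (z : Ltr T) (h1 : ∀ r, z ≠ Ltr.x r)
    (h2 : ∀ r, z ≠ Ltr.c r) : ∀ h ∈ delX T l, h z = {[z]} := by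
  intro h hh
  obtain ⟨r, hr, rfl⟩ := List.mem_map.1 hh
  exact tab_other (h1 r) (h2 r) _

theorem delY_self (T : Finset ℕ) (l : List ℕ) (z : Ltr T) (h1 : ∀ r, z ≠ Ltr.y r)
    (h2 : ∀ r, z ≠ Ltr.p r) : ∀ h ∈ delY T l, h z = {[z]} := by
  intro h hh
  obtain ⟨r, hr, rfl⟩ := List.mem_map.1 hh
  exact tab_other (h1 r) (h2 r) _

/-- A block of work in phase `q`: every letter `f i` is rewritten, then the watchers vanish. -/
def work (T : Finset ℕ) (m q : ℕ) (f : ℕ → Ltr T) (A : ℕ → Finset (List (Ltr T)))
    (l : List ℕ) : List (Ltr T → Finset (List (Ltr T))) :=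
  l.flatMap (fun i => tab (f i) (A i) :: delW T m q)

theorem work_self (T : Finset ℕ) (q : ℕ) (f : ℕ → Ltr T) (A : ℕ → Finset (List (Ltr T)))
    (l : List ℕ) (z : Ltr T) (h0 : ∀ i ∈ l, z ≠ f i ∧ z ≠ mate (f i))
    (h1 : ∀ r, z ≠ Ltr.w r) (h2 : ∀ r, r ≠ q → z ≠ Ltr.K r) :
    ∀ h ∈ work T m q f A l, h z = {[z]} := by
  intro h hh
  obtain ⟨i, hi, hh⟩ := List.mem_flatMap.1 hh
  rcases List.mem_cons.1 hh with rfl | hh
  · exact tab_other (h0 i hi).1 (h0 i hi).2 _
  · exact delW_self T q z h1 h2 h hh

/-- In a work block a letter `f i` turns into `v` when `v ++ ws ∈ A i` and `v` is inert. -/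
theorem runs_work (T : Finset ℕ) (q : ℕ) (f : ℕ → Ltr T) (hf : Function.Injective f)
    (hfm : ∀ i j, f i ≠ mate (f j)) (hfw : ∀ i r, f i ≠ Ltr.w r) (hfK : ∀ i r, f i ≠ Ltr.K r)
    (A : ℕ → Finset (List (Ltr T)))
    (l : List ℕ) (i : ℕ) (hi : i ∈ l) (v : List (Ltr T)) (hv : v ++ ws m T q ∈ A i)
    (hin : ∀ z ∈ v, (∀ i, z ≠ f i ∧ z ≠ mate (f i)) ∧ (∀ r, z ≠ Ltr.w r) ∧
      (∀ r, z ≠ Ltr.K r)) :
    Runs (work T m q f A l) [f i] v := by
  induction l with
  | nil => simp at hi
  | cons a l ih =>
    have e1 : work T m q f A (a :: l) = (tab (f a) (A a) :: delW T m q) ++ work T m q f A l := by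
      simp [work]
    rw [e1, runs_append]
    by_cases ha : a = i
    · subst ha
      refine ⟨v, ⟨v ++ ws m T q, ?_, ?_⟩, ?_⟩
      · rw [rewrites_singleton, tab_self]
        exact hv
      · have h3 : Runs (delW T m q) v v :=
          runs_self _ _ (fun h hh c hc =>
            delW_self T q c (hin c hc).2.1 (fun r _ => (hin c hc).2.2 r) h hh)
        have h4 := runs_concat _ h3 (runs_ws (m := m) T q)
        simpa using h4
      · exact runs_self _ _ (fun h hh c hc =>
          work_self T q f A l c (fun j _ => (hin c hc).1 j) (hin c hc).2.1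
            (fun r _ => (hin c hc).2.2 r) h hh)
    · refine ⟨[f i], ?_, ih ?_⟩
      · refine runs_letter' _ _ ?_
        intro h hh
        rcases List.mem_cons.1 hh with rfl | hh
        · exact tab_other (fun h => ha (hf h).symm) (hfm i a) _
        · exact delW_self T q _ (hfw i) (fun r _ => hfK i r) h hh
      · rcases List.mem_cons.1 hi with h | h
        · exact absurd h.symm ha
        · exact h
where
  runs_letter' (τ : List (Ltr T → Finset (List (Ltr T))))
    (z : Ltr T) (H : ∀ h ∈ τ, h z = {[z]}) : Runs τ [z] [z] :=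
  runs_self τ [z] (by
    intro h hh c hc
    rw [List.mem_singleton] at hc
    subst hc
    exact H h hh)

/-- The tables simulating one application of `ht t`. -/
noncomputable def cycle (G : ET0L) (m : ℕ) (ht : ℕ → ℕ → Finset (List ℕ)) (t : ℕ) :
    List (Ltr G.terminals → Finset (List (Ltr G.terminals))) :=
  [tab (Ltr.K 0) {Ltr.K (t + 2) :: ys G.terminals G.letters}] ++
    (delY G.terminals G.letters.toList ++
      (work G.terminals m (t + 2) Ltr.c
          (fun i => (ht t i).image (fun v => v.map Ltr.p ++ ws m G.terminals (t + 2)))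
          G.letters.toList ++
        ([tab (Ltr.K (t + 2)) {Ltr.K 0 :: xs G.terminals G.letters}] ++
          (delX G.terminals G.letters.toList ++
            work G.terminals m 0 Ltr.p (fun i => {Ltr.c i :: ws m G.terminals 0})
              G.letters.toList))))

theorem cycle_K (t : ℕ) : Runs (cycle G m ht t) [Ltr.K 0] [Ltr.K 0] := by
  unfold cycle
  rw [runs_append]
  refine ⟨Ltr.K (t + 2) :: ys G.terminals G.letters, ⟨_, ?_, rfl⟩, ?_⟩
  · rw [rewrites_singleton, tab_self]; simp
  rw [runs_append]
  refine ⟨[Ltr.K (t + 2)], ?_, ?_⟩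
  · have h1 := runs_letter (delY G.terminals G.letters.toList) (Ltr.K (t + 2))
      (delY_self _ _ _ (by simp) (by simp))
    have h2 := runs_concat _ h1 (runs_ys G.terminals G.letters)
    simpa using h2
  rw [runs_append]
  refine ⟨[Ltr.K (t + 2)], ?_, ?_⟩
  · exact runs_letter _ _ (work_self _ _ _ _ _ _ (by simp [mate]) (by simp)
      (by intro r hr h; exact hr (by simpa using h.symm)))
  rw [runs_append]
  refine ⟨Ltr.K 0 :: xs G.terminals G.letters, ⟨_, ?_, rfl⟩, ?_⟩
  · rw [rewrites_singleton, tab_self]; simp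
  rw [runs_append]
  refine ⟨[Ltr.K 0], ?_, ?_⟩
  · have h1 := runs_letter (delX G.terminals G.letters.toList) (Ltr.K 0)
      (delX_self _ _ _ (by simp) (by simp))
    have h2 := runs_concat _ h1 (runs_xs G.terminals G.letters)
    simpa using h2
  · exact runs_letter _ _ (work_self _ _ _ _ _ _ (by simp [mate]) (by simp)
      (by intro r hr h; exact hr (by simpa using h.symm)))

theorem runs_map_work (l : List ℕ) (v : List ℕ) (hv : ∀ j ∈ v, j ∈ l) :
    Runs (work G.terminals m 0 Ltr.p (fun i => {Ltr.c i :: ws m G.terminals 0}) l)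
      (v.map Ltr.p) (v.map Ltr.c) := by
  induction v with
  | nil => exact (runs_nil_word _ _).2 rfl
  | cons j v ih =>
    have h1 := runs_work (m := m) G.terminals 0 Ltr.p (fun a b h => by simpa using h)
      (by simp [mate]) (by simp) (by simp) (fun i => {Ltr.c i :: ws m G.terminals 0}) l j
      (hv j (by simp)) [Ltr.c j] (by simp) (by
        intro z hz
        rw [List.mem_singleton] at hz
        subst hz
        simp [mate])
    exact runs_concat _ h1 (ih (fun i hi => hv i (by simp [hi])))

theorem cycle_c (t i : ℕ) (hi : i ∈ G.letters) (v : List ℕ) (hv : v ∈ ht t i)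
    (hvL : ∀ j ∈ v, j ∈ G.letters) :
    Runs (cycle G m ht t) [Ltr.c i] (v.map Ltr.c) := by
  unfold cycle
  rw [runs_append]
  refine ⟨[Ltr.c i], runs_letter _ _ ?_, ?_⟩
  · intro h hh
    rw [List.mem_singleton] at hh
    subst hh
    exact tab_other (by simp) (by simp [mate]) _
  rw [runs_append]
  refine ⟨[Ltr.c i], runs_letter _ _ (delY_self _ _ _ (by simp) (by simp)), ?_⟩
  rw [runs_append]
  refine ⟨v.map Ltr.p, ?_, ?_⟩
  · refine runs_work _ _ _ (fun a b h => by simpa using h) (by simp [mate]) (by simp) (by simp)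
      _ _ i (by simpa using hi) _ ?_ ?_
    · exact Finset.mem_image_of_mem _ hv
    · intro z hz
      obtain ⟨j, _, rfl⟩ := List.mem_map.1 hz
      simp [mate]
  rw [runs_append]
  refine ⟨v.map Ltr.p, runs_self _ _ ?_, ?_⟩
  · intro h hh c hc
    obtain ⟨j, _, rfl⟩ := List.mem_map.1 hc
    rw [List.mem_singleton] at hh
    subst hh
    exact tab_other (by simp) (by simp [mate]) _
  rw [runs_append]
  refine ⟨v.map Ltr.p, runs_self _ _ ?_, ?_⟩
  · intro h hh c hc
    obtain ⟨j, _, rfl⟩ := List.mem_map.1 hc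
    exact delX_self _ _ _ (by simp) (by simp) h hh
  · exact runs_map_work _ v (fun j hj => by simpa using hvL j hj)

theorem cycle_word (t : ℕ) (H : ∀ i ∈ G.letters, ∀ v ∈ ht t i, ∀ j ∈ v, j ∈ G.letters)
    (u u' : List ℕ) (hu : ∀ i ∈ u, i ∈ G.letters) (h : Rewrites (ht t) u u') :
    Runs (cycle G m ht t) (u.map Ltr.c) (u'.map Ltr.c) := by
  induction u generalizing u' with
  | nil =>
    have : u' = [] := h
    subst this
    exact (runs_nil_word _ _).2 rfl
  | cons i u ih =>
    obtain ⟨v, hv, z, hz, rfl⟩ := h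
    have hi : i ∈ G.letters := hu i (by simp)
    have h1 := cycle_c (m := m) t i hi v hv (H i hi v hv)
    have h2 := ih z (fun j hj => hu j (by simp [hj])) hz
    have h3 := runs_concat _ h1 h2
    simpa using h3

theorem mem_tables_del (q : ℕ) :
    ∀ h ∈ delW G.terminals m q, h ∈ newTables G m ht := by
  intro h hh
  obtain ⟨r, hr, rfl⟩ := List.mem_map.1 hh
  simp only [ne_eq, List.mem_filter, List.mem_range, decide_eq_true_eq] at hr
  exact ⟨_, _, Rule.dw r hr.1, rfl⟩

theorem mem_tables_delX :
    ∀ h ∈ delX G.terminals G.letters.toList, h ∈ newTables G m ht := by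
  intro h hh
  obtain ⟨r, hr, rfl⟩ := List.mem_map.1 hh
  exact ⟨_, _, Rule.dx r (by simpa using hr), rfl⟩

theorem mem_tables_delY :
    ∀ h ∈ delY G.terminals G.letters.toList, h ∈ newTables G m ht := by
  intro h hh
  obtain ⟨r, hr, rfl⟩ := List.mem_map.1 hh
  exact ⟨_, _, Rule.dy r (by simpa using hr), rfl⟩

theorem mem_tables_work (q : ℕ) (f : ℕ → Ltr G.terminals)
    (A : ℕ → Finset (List (Ltr G.terminals))) (l : List ℕ)
    (H : ∀ i ∈ l, tab (f i) (A i) ∈ newTables G m ht) :
    ∀ h ∈ work G.terminals m q f A l, h ∈ newTables G m ht := by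
  intro h hh
  obtain ⟨i, hi, hh⟩ := List.mem_flatMap.1 hh
  rcases List.mem_cons.1 hh with rfl | hh
  · exact H i hi
  · exact mem_tables_del q h hh

theorem cycle_mem (t : ℕ) (h1 : t < m) : ∀ h ∈ cycle G m ht t, h ∈ newTables G m ht := by
  intro h hh
  unfold cycle at hh
  rcases List.mem_append.1 hh with hh | hh
  · rw [List.mem_singleton] at hh
    subst hh
    exact ⟨_, _, Rule.ba t h1, rfl⟩
  rcases List.mem_append.1 hh with hh | hh
  · exact mem_tables_delY h hh
  rcases List.mem_append.1 hh with hh | hh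
  · exact mem_tables_work _ _ _ _ (fun i hi => ⟨_, _, Rule.mark t i h1 (by simpa using hi), rfl⟩)
      h hh
  rcases List.mem_append.1 hh with hh | hh
  · rw [List.mem_singleton] at hh
    subst hh
    exact ⟨_, _, Rule.ab t h1, rfl⟩
  rcases List.mem_append.1 hh with hh | hh
  · exact mem_tables_delX h hh
  · exact mem_tables_work _ _ _ _ (fun i hi => ⟨_, _, Rule.unp i (by simpa using hi), rfl⟩) h hh

/-- The tables of the final phase. -/
noncomputable def finale (G : ET0L) (m : ℕ) :
    List (Ltr G.terminals → Finset (List (Ltr G.terminals))) :=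
  [tab (Ltr.K 0) {Ltr.K 1 :: ys G.terminals G.letters}] ++
    (delY G.terminals G.letters.toList ++
      (work G.terminals m 1 Ltr.c
          (fun i => if h : i ∈ G.terminals then {Ltr.ter ⟨i, h⟩ :: ws m G.terminals 1} else {[]})
          G.terminals.toList ++
        ([tab (Ltr.K 1) {xs G.terminals G.letters ++ ys G.terminals G.letters}] ++
          (delX G.terminals G.letters.toList ++ delY G.terminals G.letters.toList))))

theorem finale_K : Runs (finale G m) [Ltr.K 0] [] := by
  unfold finale
  rw [runs_append]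
  refine ⟨Ltr.K 1 :: ys G.terminals G.letters, ⟨_, ?_, rfl⟩, ?_⟩
  · rw [rewrites_singleton, tab_self]; simp
  rw [runs_append]
  refine ⟨[Ltr.K 1], ?_, ?_⟩
  · have h1 := runs_letter (delY G.terminals G.letters.toList) (Ltr.K 1)
      (delY_self _ _ _ (by simp) (by simp))
    have h2 := runs_concat _ h1 (runs_ys G.terminals G.letters)
    simpa using h2
  rw [runs_append]
  refine ⟨[Ltr.K 1], ?_, ?_⟩
  · exact runs_letter _ _ (work_self _ _ _ _ _ _ (by simp [mate]) (by simp)
      (by intro r hr h; exact hr (by simpa using h.symm)))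
  rw [runs_append]
  refine ⟨xs G.terminals G.letters ++ ys G.terminals G.letters, ⟨_, ?_, rfl⟩, ?_⟩
  · rw [rewrites_singleton, tab_self]; simp
  rw [runs_append]
  refine ⟨ys G.terminals G.letters, ?_, runs_ys _ _⟩
  have h1 : Runs (delX G.terminals G.letters.toList) (ys G.terminals G.letters)
      (ys G.terminals G.letters) := by
    refine runs_self _ _ ?_
    intro h hh c hc
    obtain ⟨j, _, rfl⟩ := mem_ys.1 hc
    exact delX_self _ _ _ (by simp) (by simp) h hh
  have h2 := runs_concat _ (runs_xs G.terminals G.letters) h1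
  simpa using h2

theorem finale_c (a : {a // a ∈ G.terminals}) : Runs (finale G m) [Ltr.c a.1] [Ltr.ter a] := by
  unfold finale
  rw [runs_append]
  refine ⟨[Ltr.c a.1], runs_letter _ _ ?_, ?_⟩
  · intro h hh
    rw [List.mem_singleton] at hh
    subst hh
    exact tab_other (by simp) (by simp [mate]) _
  rw [runs_append]
  refine ⟨[Ltr.c a.1], runs_letter _ _ (delY_self _ _ _ (by simp) (by simp)), ?_⟩
  rw [runs_append]
  refine ⟨[Ltr.ter a], ?_, ?_⟩
  · refine runs_work _ _ _ (fun a b h => by simpa using h) (by simp [mate]) (by simp) (by simp)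
      _ _ a.1 (by simp) _ ?_ ?_
    · simp
    · intro z hz
      rw [List.mem_singleton] at hz
      subst hz
      simp [mate]
  refine runs_letter _ _ ?_
  intro h hh
  rcases List.mem_append.1 hh with hh | hh
  · rw [List.mem_singleton] at hh
    subst hh
    exact tab_other (by simp) (by simp [mate]) _
  rcases List.mem_append.1 hh with hh | hh
  · exact delX_self _ _ _ (by simp) (by simp) h hh
  · exact delY_self _ _ _ (by simp) (by simp) h hh

theorem finale_mem : ∀ h ∈ finale G m, h ∈ newTables G m ht := by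
  intro h hh
  unfold finale at hh
  rcases List.mem_append.1 hh with hh | hh
  · rw [List.mem_singleton] at hh
    subst hh
    exact ⟨_, _, Rule.be, rfl⟩
  rcases List.mem_append.1 hh with hh | hh
  · exact mem_tables_delY h hh
  rcases List.mem_append.1 hh with hh | hh
  · refine mem_tables_work _ _ _ _ (fun i hi => ?_) h hh
    have hi' : i ∈ G.terminals := by simpa using hi
    refine ⟨_, _, Rule.fin ⟨i, hi'⟩, ?_⟩
    simp [hi']
  rcases List.mem_append.1 hh with hh | hh
  · rw [List.mem_singleton] at hh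
    subst hh
    exact ⟨_, _, Rule.fend, rfl⟩
  rcases List.mem_append.1 hh with hh | hh
  · exact mem_tables_delX h hh
  · exact mem_tables_delY h hh

theorem step_mem_letters (G : ET0L) {x y : List ℕ} (hx : ∀ i ∈ x, i ∈ G.letters)
    (h : G.Step x y) : ∀ i ∈ y, i ∈ G.letters := by
  obtain ⟨t, ht, h1⟩ := h
  intro i hi
  obtain ⟨a, ha, v, hv, hiv⟩ := mem_of_rewrites _ _ _ i h1 hi
  exact G.image_closed t ht a (hx a ha) v hv i hiv

theorem reach_mem_letters (G : ET0L) {u : List ℕ} (h : Reach G u) :
    ∀ i ∈ u, i ∈ G.letters := by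
  unfold Reach at h
  induction h with
  | refl => exact G.start_mem
  | tail _ h2 ih => exact step_mem_letters G ih h2

theorem complete_reach (H2 : ∀ h ∈ G.tables, ∃ t < m, ht t = h)
    (u : List ℕ) (h : Reach G u) :
    ReflTransGen (fun a b => ∃ h ∈ newTables G m ht, Rewrites h a b) (newStart G)
      (u.map Ltr.c ++ [Ltr.K 0]) := by
  unfold Reach at h
  induction h with
  | refl => exact ReflTransGen.refl
  | @tail b c h1 h2 ih =>
    obtain ⟨h, hh, h3⟩ := h2
    obtain ⟨t, htm, rfl⟩ := H2 h hh
    refine ih.trans (reflTransGen_of_runs _ _ _ _ (cycle_mem t htm) ?_)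
    exact runs_concat _ (cycle_word t (fun i hi v hv j hj => G.image_closed _ hh i hi v hv j hj)
      b c (reach_mem_letters G h1) h3) (cycle_K t)

theorem complete (H2 : ∀ h ∈ G.tables, ∃ t < m, ht t = h)
    (u : List ℕ) (h : u ∈ G.lang) :
    ∃ s : List (Ltr G.terminals), (∀ z ∈ s, ∃ a, z = Ltr.ter a) ∧ Rewrites (val G) s u ∧
      ReflTransGen (fun a b => ∃ h ∈ newTables G m ht, Rewrites h a b) (newStart G) s := by
  obtain ⟨h1, h2⟩ := h
  have h3 := complete_reach H2 u h2
  have h4 : ∃ s : List (Ltr G.terminals), (∀ z ∈ s, ∃ a, z = Ltr.ter a) ∧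
      Rewrites (val G) s u ∧ Runs (finale G m) (u.map Ltr.c) s := by
    clear h3 h2
    induction u with
    | nil => exact ⟨[], by simp, rfl, (runs_nil_word _ _).2 rfl⟩
    | cons i u ih =>
      obtain ⟨s, a1, a2, a3⟩ := ih (fun d hd => h1 d (by simp [hd]))
      have hi := h1 i (by simp)
      refine ⟨Ltr.ter ⟨i, hi⟩ :: s, ?_, ⟨[i], by simp [val], u, a2, rfl⟩, ?_⟩
      · intro z hz
        rcases List.mem_cons.1 hz with rfl | hz
        · exact ⟨_, rfl⟩
        · exact a1 z hz
      · exact runs_concat _ (finale_c ⟨i, hi⟩) a3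
  obtain ⟨s, a1, a2, a3⟩ := h4
  refine ⟨s, a1, a2, h3.trans (reflTransGen_of_runs _ (finale G m) _ _ finale_mem ?_)⟩
  have := runs_concat _ a3 (finale_K (G := G) (m := m))
  simpa using this

/-- The code of the new letters. -/
def code (T : Finset ℕ) (N : ℕ) : Ltr T → ℕ
  | .ter a => a.1
  | .c i => N + Nat.pair 0 i
  | .p i => N + Nat.pair 1 i
  | .x i => N + Nat.pair 2 i
  | .y i => N + Nat.pair 3 i
  | .K i => N + Nat.pair 4 i
  | .w i => N + Nat.pair 5 i
  | .F => N + Nat.pair 6 0

theorem code_injective (T : Finset ℕ) (N : ℕ) (hN : ∀ a ∈ T, a < N) :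
    Function.Injective (code T N) := by
  intro z₁ z₂ h
  cases z₁ with
  | ter a =>
    have ha := hN a.1 a.2
    cases z₂ with
    | ter b => congr 1; exact Subtype.ext h
    | c i => simp only [code] at h; omega
    | p i => simp only [code] at h; omega
    | x i => simp only [code] at h; omega
    | y i => simp only [code] at h; omega
    | K i => simp only [code] at h; omega
    | w i => simp only [code] at h; omega
    | F => simp only [code] at h; omega
  | _ =>
    cases z₂ with
    | ter b =>
      have hb := hN b.1 b.2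
      simp only [code] at h
      omega
    | _ =>
      simp only [code, Nat.add_left_cancel_iff, Nat.pair_eq_pair] at h
      simp_all

/-- Every ET0L language is generated by a 2-restricted ET0L system. -/
theorem lang_mem_family_two (G : ET0L) : G.lang ∈ Family 2 := by
  classical
  obtain ⟨m, ht, H1, H2⟩ : ∃ (m : ℕ) (ht : ℕ → ℕ → Finset (List ℕ)),
      (∀ t < m, ht t ∈ G.tables) ∧ ∀ h ∈ G.tables, ∃ t < m, ht t = h := by
    let l := G.tables_finite.toFinset.toList
    refine ⟨l.length, fun t => l.getD t (fun _ => ∅), ?_, ?_⟩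
    · intro t ht
      have : l.getD t (fun _ => ∅) = l[t] := by simp [List.getD, ht]
      show l.getD t (fun _ => ∅) ∈ G.tables
      rw [this]
      have h2 : l[t] ∈ l := List.getElem_mem ht
      exact (Set.Finite.mem_toFinset _).1 (Finset.mem_toList.1 h2)
    · intro h hh
      have h1 : h ∈ l := by simpa [l] using hh
      obtain ⟨t, ht, h2⟩ := List.getElem_of_mem h1
      refine ⟨t, ht, ?_⟩
      show l.getD t (fun _ => ∅) = h
      simp [List.getD, ht, h2]
  let N := G.terminals.sup id + 1
  have hN : ∀ a ∈ G.terminals, a < N := by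
    intro a ha
    have := Finset.le_sup (f := id) ha
    simp only [id] at this
    show a < G.terminals.sup id + 1
    exact Nat.lt_succ_of_le this
  have he := code_injective G.terminals N hN
  obtain ⟨G', hG1, hG2⟩ := exists_et0l (code G.terminals N) he (newLetters G m)
    (newTables G m ht) (newTables_finite G m ht)
    ⟨_, _, _, Rule.be, rfl⟩
    (by
      rintro h ⟨g, A, hr, rfl⟩ c hc
      unfold tab
      split
      · cases hr with
        | mark t i h1 h2 => exact (G.image_nonempty _ (H1 t h1) i h2).image _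
        | _ => simp
      · split <;> simp)
    (by
      rintro h ⟨g, A, hr, rfl⟩ c hc v hv d hd
      have := closed_step H1 hr (s := [c]) (s' := v) (by simpa using hc)
        ((rewrites_singleton _ _ _).2 hv)
      exact this d hd)
    (newStart G) (by simp [newStart])
    (fun d hd => (inv_start (G := G) (m := m) (ht := ht)).1 d hd)
    (Finset.univ.image Ltr.ter)
    (by
      intro z hz
      obtain ⟨a, _, rfl⟩ := Finset.mem_image.1 hz
      exact (mem_newLetters G m _).2 trivial)
    2
    (by
      rintro h ⟨g, A, hr, rfl⟩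
      have hsub : (newLetters G m).filter (fun c => tab g A c ≠ {[c]}) ⊆ {g, mate g} := by
        intro z hz
        obtain ⟨_, h2⟩ := Finset.mem_filter.1 hz
        by_contra h3
        simp only [Finset.mem_insert, Finset.mem_singleton, not_or] at h3
        exact h2 (tab_other h3.1 h3.2 A)
      exact (Finset.card_le_card hsub).trans (Finset.card_le_two))
  refine ⟨G', hG1, ?_⟩
  rw [hG2]
  have hcode : ∀ s : List (Ltr G.terminals), (∀ z ∈ s, ∃ a, z = Ltr.ter a) →
      ∀ u, Rewrites (val G) s u → u = s.map (code G.terminals N) := by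
    intro s
    induction s with
    | nil => intro _ u hu; exact hu
    | cons z s ih =>
      intro hs u hu
      obtain ⟨a, rfl⟩ := hs z (by simp)
      obtain ⟨v, hv, z', hz', rfl⟩ := hu
      simp only [val, Finset.mem_singleton] at hv
      subst hv
      rw [ih (fun z hz => hs z (by simp [hz])) z' hz']
      rfl
  have hter : ∀ s : List (Ltr G.terminals),
      (∀ d ∈ s, d ∈ (Finset.univ.image Ltr.ter : Finset (Ltr G.terminals))) ↔
        ∀ z ∈ s, ∃ a, z = Ltr.ter a := by
    intro s
    constructor
    · intro h z hz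
      obtain ⟨a, _, rfl⟩ := Finset.mem_image.1 (h z hz)
      exact ⟨a, rfl⟩
    · intro h z hz
      obtain ⟨a, rfl⟩ := h z hz
      exact Finset.mem_image_of_mem _ (Finset.mem_univ _)
  ext w
  constructor
  · rintro ⟨v, h1, h2, rfl⟩
    rw [hter] at h1
    obtain ⟨u, hu, h3⟩ := sound H1 v h1 h2
    rw [← hcode v h1 u h3]
    exact hu
  · intro hw
    obtain ⟨s, h1, h2, h3⟩ := complete (m := m) (ht := ht) H2 w hw
    exact ⟨s, (hter s).2 h1, h3, hcode s h1 w h2⟩

end Complete

end Pool.Agent.R938.EL
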