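import Pool.Agent.R938.EL.Basic

/-! The language of the words `0^n 1^n 2^n` is not generated by a 1-restricted ET0L system. -/

namespace Pool.Agent.R938.EL

open Relation

/-- The words `0^n 1^n 2^n`. -/
def L0 : Set (List ℕ) :=
  {w | ∃ n, w = List.replicate n 0 ++ List.replicate n 1 ++ List.replicate n 2}

/-- First difference of letter counts. -/
def d1 (x : List ℕ) : ℤ := (x.count 0 : ℤ) - x.count 1

/-- Second difference of letter counts. -/
def d2 (x : List ℕ) : ℤ := (x.count 1 : ℤ) - x.count 2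

theorem d1_append (x y : List ℕ) : d1 (x ++ y) = d1 x + d1 y := by
  simp [d1, List.count_append]; ring

theorem d2_append (x y : List ℕ) : d2 (x ++ y) = d2 x + d2 y := by
  simp [d2, List.count_append]; ring

@[simp] theorem d1_nil : d1 [] = 0 := by simp [d1]

@[simp] theorem d2_nil : d2 [] = 0 := by simp [d2]

theorem L0_d1 {w : List ℕ} (h : w ∈ L0) : d1 w = 0 := by
  obtain ⟨n, rfl⟩ := h
  simp [d1, List.count_append, List.count_replicate]

theorem L0_d2 {w : List ℕ} (h : w ∈ L0) : d2 w = 0 := by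
  obtain ⟨n, rfl⟩ := h
  simp [d2, List.count_append, List.count_replicate]

theorem L0_sorted {w : List ℕ} (h : w ∈ L0) : w.Pairwise (· ≤ ·) := by
  obtain ⟨n, rfl⟩ := h
  rw [List.pairwise_append, List.pairwise_append]
  refine ⟨⟨?_, ?_, ?_⟩, ?_, ?_⟩
  · exact List.pairwise_replicate_of_refl
  · exact List.pairwise_replicate_of_refl
  · intro a ha b hb
    rw [List.eq_of_mem_replicate ha]
    omega
  · exact List.pairwise_replicate_of_refl
  · intro a ha b hb
    rw [List.eq_of_mem_replicate hb]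
    rcases List.mem_append.1 ha with h | h
    · rw [List.eq_of_mem_replicate h]; omega
    · rw [List.eq_of_mem_replicate h]; omega

/-- Terminal words produced by a letter. -/
def Val (G : ET0L) (τ : List (ℕ → Finset (List ℕ))) (X : ℕ) (x : List ℕ) : Prop :=
  Runs τ [X] x ∧ ∀ d ∈ x, d ∈ G.terminals

/-- Letters producing some terminal word. -/
noncomputable def Dom (G : ET0L) (τ : List (ℕ → Finset (List ℕ))) : Finset ℕ := by
  classical exact G.letters.filter (fun X => ∃ x, Val G τ X x)

theorem mem_Dom {G : ET0L} {τ : List (ℕ → Finset (List ℕ))} {X : ℕ} :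
    X ∈ Dom G τ ↔ X ∈ G.letters ∧ ∃ x, Val G τ X x := by
  classical
  simp [Dom]

theorem count_one_of_not_zero {y : List ℕ} (h : 0 ∉ y) : (y.count 1 : ℤ) ≤ |d1 y| := by
  have : y.count 0 = 0 := List.count_eq_zero.2 h
  simp [d1, this]

theorem count_one_of_not_two {y : List ℕ} (h : 2 ∉ y) : (y.count 1 : ℤ) ≤ |d2 y| := by
  have : y.count 2 = 0 := List.count_eq_zero.2 h
  simp [d2, this]

/-- bound of the differences of a product of values -/
theorem bound_d (G : ET0L) (τ : List (ℕ → Finset (List ℕ))) (M : ℕ)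
    (H : ∀ Y ∈ G.letters, ∀ y, Val G τ Y y → |d1 y| ≤ M ∧ |d2 y| ≤ M)
    (α : List ℕ) (hα : ∀ Y ∈ α, Y ∈ G.letters) (x : List ℕ) (hx : Runs τ α x)
    (ht : ∀ d ∈ x, d ∈ G.terminals) :
    |d1 x| ≤ α.length * M ∧ |d2 x| ≤ α.length * M := by
  induction α generalizing x with
  | nil =>
    rw [(runs_nil_word τ x).1 hx]
    simp
  | cons Y α ih =>
    obtain ⟨y, z, h1, h2, rfl⟩ := (runs_split τ [Y] α x).1 (by simpa using hx)
    obtain ⟨a1, a2⟩ := H Y (hα Y (by simp)) y ⟨h1, fun d hd => ht d (by simp [hd])⟩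
    obtain ⟨b1, b2⟩ := ih (fun Y hY => hα Y (by simp [hY])) z h2
      (fun d hd => ht d (by simp [hd]))
    rw [d1_append, d2_append]
    have e : (((Y :: α).length : ℕ) : ℤ) * M = M + α.length * M := by
      push_cast [List.length_cons]; ring
    rw [e]
    exact ⟨(abs_add_le _ _).trans (add_le_add a1 b1), (abs_add_le _ _).trans (add_le_add a2 b2)⟩

/-- bound of the number of letters `1` of a sorted product of values -/
theorem bound_count (G : ET0L) (τ : List (ℕ → Finset (List ℕ))) (M B : ℕ)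
    (H : ∀ Y ∈ G.letters, ∀ y, Val G τ Y y → |d1 y| ≤ M ∧ |d2 y| ≤ M ∧ y.count 1 ≤ B)
    (α : List ℕ) (hα : ∀ Y ∈ α, Y ∈ G.letters) (x : List ℕ) (hx : Runs τ α x)
    (ht : ∀ d ∈ x, d ∈ G.terminals) (hs : x.Pairwise (· ≤ ·)) :
    x.count 1 ≤ max (α.length * M) B ∧ (0 ∉ x → x.count 1 ≤ α.length * M) := by
  induction α generalizing x with
  | nil =>
    rw [(runs_nil_word τ x).1 hx]
    simp
  | cons Y α ih =>
    obtain ⟨y, z, h1, h2, rfl⟩ := (runs_split τ [Y] α x).1 (by simpa using hx)
    obtain ⟨a1, a2, a3⟩ := H Y (hα Y (by simp)) y ⟨h1, fun d hd => ht d (by simp [hd])⟩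
    rw [List.pairwise_append] at hs
    obtain ⟨s1, s2, s3⟩ := hs
    obtain ⟨b1, b2⟩ := ih (fun Y hY => hα Y (by simp [hY])) z h2
      (fun d hd => ht d (by simp [hd])) s2
    have e : (Y :: α).length * M = M + α.length * M := by
      rw [List.length_cons]; ring
    have c0 : 0 ∉ y → y.count 1 ≤ M := fun h => by
      have := (count_one_of_not_zero h).trans a1
      exact_mod_cast this
    have c2 : 2 ∉ y → y.count 1 ≤ M := fun h => by
      have := (count_one_of_not_two h).trans a2
      exact_mod_cast this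
    rw [List.count_append, e]
    constructor
    · by_cases hz : 0 ∈ z
      · have hy : y.count 1 = 0 := by
          refine List.count_eq_zero.2 (fun h => ?_)
          have := s3 1 h 0 hz
          omega
        rw [hy]
        have : max (α.length * M) B ≤ max (M + α.length * M) B :=
          max_le_max (by omega) le_rfl
        omega
      · have hz' := b2 hz
        by_cases h02 : 0 ∈ y ∧ 2 ∈ y
        · have hz2 : z.count 1 = 0 := by
            refine List.count_eq_zero.2 (fun h => ?_)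
            have := s3 2 h02.2 1 h
            omega
          rw [hz2]
          exact le_max_of_le_right (by omega)
        · refine le_max_of_le_left ?_
          have : y.count 1 ≤ M := by
            by_cases h0 : 0 ∈ y
            · exact c2 (fun h => h02 ⟨h0, h⟩)
            · exact c0 h0
          omega
    · intro h0
      have h0y : 0 ∉ y := fun h => h0 (by simp [h])
      have h0z : 0 ∉ z := fun h => h0 (by simp [h])
      have := c0 h0y
      have := b2 h0z
      omega

/-- Exchanging the values of one letter. -/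
theorem exchange (G : ET0L) (τ₂ τ₃ : List (ℕ → Finset (List ℕ))) (X : ℕ)
    (hY : ∀ Y ∈ G.letters, Y ≠ X → ∀ y, Runs τ₂ [Y] y → Runs τ₃ [Y] y)
    (φ : List ℕ) (hφ : ∀ Y ∈ φ, Y ∈ G.letters) (w : List ℕ) (hw : Runs τ₂ φ w)
    (ht : ∀ d ∈ w, d ∈ G.terminals) :
    ∃ ρ₁ ρ₂ : ℤ, (∀ x, Val G τ₂ X x → ∃ w', Runs τ₂ φ w' ∧ (∀ d ∈ w', d ∈ G.terminals) ∧
        d1 w' = ρ₁ + φ.count X * d1 x ∧ d2 w' = ρ₂ + φ.count X * d2 x ∧
        (X ∈ φ → x <:+: w')) ∧
      (∀ x, Val G τ₃ X x → ∃ w', Runs τ₃ φ w' ∧ (∀ d ∈ w', d ∈ G.terminals) ∧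
        d1 w' = ρ₁ + φ.count X * d1 x ∧ d2 w' = ρ₂ + φ.count X * d2 x) := by
  induction φ generalizing w with
  | nil =>
    refine ⟨0, 0, ?_, ?_⟩
    · intro x _
      exact ⟨[], (runs_nil_word _ _).2 rfl, by simp, by simp, by simp, by simp⟩
    · intro x _
      exact ⟨[], (runs_nil_word _ _).2 rfl, by simp, by simp, by simp⟩
  | cons Y φ ih =>
    obtain ⟨y, z, h1, h2, rfl⟩ := (runs_split τ₂ [Y] φ w).1 (by simpa using hw)
    obtain ⟨ρ₁, ρ₂, i1, i2⟩ := ih (fun Y hY => hφ Y (by simp [hY])) z h2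
      (fun d hd => ht d (by simp [hd]))
    by_cases hYX : Y = X
    · subst hYX
      refine ⟨ρ₁, ρ₂, ?_, ?_⟩
      · intro x hx
        obtain ⟨w', j1, j2, j3, j4, j5⟩ := i1 x hx
        refine ⟨x ++ w', runs_concat _ hx.1 j1, ?_, ?_, ?_, ?_⟩
        · intro d hd
          rcases List.mem_append.1 hd with hd | hd
          · exact hx.2 d hd
          · exact j2 d hd
        · rw [d1_append, j3, List.count_cons_self]; push_cast; ring
        · rw [d2_append, j4, List.count_cons_self]; push_cast; ring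
        · intro _
          exact ⟨[], w', by simp⟩
      · intro x hx
        obtain ⟨w', j1, j2, j3, j4⟩ := i2 x hx
        refine ⟨x ++ w', runs_concat _ hx.1 j1, ?_, ?_, ?_⟩
        · intro d hd
          rcases List.mem_append.1 hd with hd | hd
          · exact hx.2 d hd
          · exact j2 d hd
        · rw [d1_append, j3, List.count_cons_self]; push_cast; ring
        · rw [d2_append, j4, List.count_cons_self]; push_cast; ring
    · refine ⟨ρ₁ + d1 y, ρ₂ + d2 y, ?_, ?_⟩
      · intro x hx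
        obtain ⟨w', j1, j2, j3, j4, j5⟩ := i1 x hx
        refine ⟨y ++ w', runs_concat _ h1 j1, ?_, ?_, ?_, ?_⟩
        · intro d hd
          rcases List.mem_append.1 hd with hd | hd
          · exact ht d (by simp [hd])
          · exact j2 d hd
        · rw [d1_append, j3, List.count_cons_of_ne hYX]; ring
        · rw [d2_append, j4, List.count_cons_of_ne hYX]; ring
        · intro hX
          have : X ∈ φ := by
            rcases List.mem_cons.1 hX with h | h
            · exact absurd h.symm hYX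
            · exact h
          obtain ⟨a, b, hab⟩ := j5 this
          exact ⟨y ++ a, b, by rw [← hab]; simp⟩
      · intro x hx
        obtain ⟨w', j1, j2, j3, j4⟩ := i2 x hx
        refine ⟨y ++ w', runs_concat _ (hY Y (hφ Y (by simp)) hYX y h1) j1, ?_, ?_, ?_⟩
        · intro d hd
          rcases List.mem_append.1 hd with hd | hd
          · exact ht d (by simp [hd])
          · exact j2 d hd
        · rw [d1_append, j3, List.count_cons_of_ne hYX]; ring
        · rw [d2_append, j4, List.count_cons_of_ne hYX]; ring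

/-- In a run, a letter of the word has a value. -/
theorem exists_val (G : ET0L) (τ : List (ℕ → Finset (List ℕ))) (φ w : List ℕ) (X : ℕ)
    (hX : X ∈ φ) (hw : Runs τ φ w) (ht : ∀ d ∈ w, d ∈ G.terminals) : ∃ x, Val G τ X x := by
  obtain ⟨a, b, rfl⟩ := List.append_of_mem hX
  obtain ⟨y, z, h1, h2, rfl⟩ := (runs_split τ a (X :: b) w).1 hw
  obtain ⟨x, z', h3, h4, rfl⟩ := (runs_split τ [X] b z).1 (by simpa using h2)
  exact ⟨x, h3, fun d hd => ht d (by simp [hd])⟩

theorem runs_letters (G : ET0L) (τ : List (ℕ → Finset (List ℕ))) (hτ : ∀ h ∈ τ, h ∈ G.tables)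
    (x y : List ℕ) (hx : ∀ d ∈ x, d ∈ G.letters) (h : Runs τ x y) : ∀ d ∈ y, d ∈ G.letters := by
  induction τ generalizing x with
  | nil =>
    have : y = x := h
    subst this
    exact hx
  | cons t τ ih =>
    obtain ⟨z, h1, h2⟩ := h
    refine ih (fun g hg => hτ g (by simp [hg])) z ?_ h2
    intro i hi
    obtain ⟨a, ha, v, hv, hiv⟩ := mem_of_rewrites _ _ _ i h1 hi
    exact G.image_closed t (hτ t (by simp)) a (hx a ha) v hv i hiv

theorem L0_not_mem_family_one : L0 ∉ Family 1 := by
  rintro ⟨G, hG, hL⟩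
  -- the active letter of a table
  have hact : ∀ h ∈ G.tables, ∃ X, ∀ c ∈ G.letters, c ≠ X → h c = {[c]} := by
    intro h hh
    obtain ⟨X, hX⟩ := Finset.card_le_one_iff_subset_singleton.1 (hG h hh)
    refine ⟨X, fun c hc hcX => ?_⟩
    by_contra h1
    have := hX (Finset.mem_filter.2 ⟨hc, h1⟩)
    exact hcX (by simpa using this)
  -- a bound for the lengths of the images
  obtain ⟨r, hr1, hr2, hr3⟩ : ∃ r : ℕ, 1 ≤ r ∧ G.start.length ≤ r ∧
      ∀ h ∈ G.tables, ∀ c ∈ G.letters, ∀ v ∈ h c, v.length ≤ r := by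
    have hf : (⋃ h ∈ G.tables, ⋃ c ∈ G.letters, ((h c : Finset (List ℕ)) : Set (List ℕ))).Finite :=
      Set.Finite.biUnion G.tables_finite (fun h _ =>
        Set.Finite.biUnion G.letters.finite_toSet (fun c _ => (h c).finite_toSet))
    obtain ⟨b, hb⟩ := (hf.image List.length).bddAbove
    refine ⟨max 1 (max G.start.length b), le_max_left _ _,
      (le_max_left _ _).trans (le_max_right _ _), ?_⟩
    intro h hh c hc v hv
    refine le_trans ?_ ((le_max_right _ _).trans (le_max_right _ _))
    apply hb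
    refine ⟨v, ?_, rfl⟩
    simp only [Set.mem_iUnion]
    exact ⟨h, hh, c, hc, hv⟩
  set B : ℕ := r * r ^ G.letters.card with hB
  have hpow : ∀ τ, r ^ (Dom G τ).card ≤ r ^ G.letters.card := fun τ => by
    refine Nat.pow_le_pow_right hr1 (Finset.card_le_card ?_)
    intro X hX
    exact (mem_Dom.1 hX).1
  have inL : ∀ (τ : List (ℕ → Finset (List ℕ))) (w : List ℕ), (∀ h ∈ τ, h ∈ G.tables) →
      Runs τ G.start w → (∀ d ∈ w, d ∈ G.terminals) → w ∈ L0 := by
    intro τ w h1 h2 h3
    rw [← hL]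
    exact ⟨h3, reflTransGen_of_runs _ τ _ _ h1 h2⟩
  let w : List ℕ := List.replicate (B + 1) 0 ++ List.replicate (B + 1) 1 ++
    List.replicate (B + 1) 2
  have hwL : w ∈ L0 := ⟨B + 1, rfl⟩
  have hwG : w ∈ G.lang := by rw [hL]; exact hwL
  have hwt : ∀ d ∈ w, d ∈ G.terminals := hwG.1
  classical
  have hex : ∃ k, ∃ τ : List (ℕ → Finset (List ℕ)), τ.length = k ∧ (∀ h ∈ τ, h ∈ G.tables) ∧
      Runs τ G.start w := by
    obtain ⟨τ, h1, h2⟩ := runs_of_reflTransGen _ _ _ hwG.2
    exact ⟨_, τ, rfl, h1, h2⟩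
  have hmin := fun k (hk : k < Nat.find hex) => Nat.find_min hex hk
  obtain ⟨τ, hτ1, hτ2, hτ3⟩ := Nat.find_spec hex
  have main : ∀ (τ₂ τ₁ : List (ℕ → Finset (List ℕ))) (φ : List ℕ),
      (∀ h ∈ τ₁ ++ τ₂, h ∈ G.tables) → (τ₁ ++ τ₂).length = Nat.find hex →
      Runs τ₁ G.start φ → Runs τ₂ φ w →
      ∀ Y ∈ G.letters, ∀ y, Val G τ₂ Y y →
        |d1 y| ≤ (r ^ (Dom G τ₂).card : ℕ) ∧ |d2 y| ≤ (r ^ (Dom G τ₂).card : ℕ) ∧
          y.count 1 ≤ B := by
    intro τ₂
    induction τ₂ with
    | nil =>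
      intro τ₁ φ _ _ _ _ Y hY y hy
      have e : y = [Y] := hy.1
      subst e
      have h1 : (1 : ℤ) ≤ (r ^ (Dom G ([] : List (ℕ → Finset (List ℕ)))).card : ℕ) := by
        exact_mod_cast Nat.one_le_pow _ _ hr1
      have h2 : 1 ≤ B := by
        rw [hB]
        exact Nat.mul_pos hr1 (Nat.pow_pos hr1)
      refine ⟨?_, ?_, ?_⟩
      · refine le_trans ?_ h1
        by_cases a0 : Y = 0
        · subst a0; simp [d1]
        · by_cases a1 : Y = 1
          · subst a1; simp [d1]
          · simp [d1, a0, a1]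
      · refine le_trans ?_ h1
        by_cases a0 : Y = 1
        · subst a0; simp [d2]
        · by_cases a1 : Y = 2
          · subst a1; simp [d2]
          · simp [d2, a0, a1]
      · exact (List.count_le_length).trans (by simpa using h2)
    | cons h τ₃ ih =>
      intro τ₁ φ hmem hlen hφ hw
      have hh : h ∈ G.tables := hmem h (by simp)
      obtain ⟨φ₁, hr, hw₁⟩ := hw
      have hw : Runs (h :: τ₃) φ w := ⟨φ₁, hr, hw₁⟩
      have hφL : ∀ d ∈ φ, d ∈ G.letters :=
        runs_letters G τ₁ (fun g hg => hmem g (by simp [hg])) _ _ G.start_mem hφ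
      have IH := ih (τ₁ ++ [h]) φ₁ (by simpa using hmem) (by simpa using hlen)
        ((runs_append _ _ _ _).2 ⟨φ, hφ, φ₁, hr, rfl⟩) hw₁
      obtain ⟨X, hX⟩ := hact h hh
      have hXφ : X ∈ φ := by
        by_contra hnot
        have e : φ₁ = φ := (rewrites_self h φ φ₁ (fun c hc =>
          hX c (hφL c hc) (fun e => hnot (e ▸ hc)))).1 hr
        subst e
        refine hmin (τ₁ ++ τ₃).length ?_ ⟨τ₁ ++ τ₃, rfl, ?_, ?_⟩
        · rw [← hlen]; simp
        · intro g hg
          rcases List.mem_append.1 hg with hg | hg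
          · exact hmem g (by simp [hg])
          · exact hmem g (by simp [hg])
        · exact (runs_append _ _ _ _).2 ⟨φ₁, hφ, hw₁⟩
      have hXL : X ∈ G.letters := hφL X hXφ
      have hother : ∀ Y ∈ G.letters, Y ≠ X → ∀ y, Runs (h :: τ₃) [Y] y ↔ Runs τ₃ [Y] y := by
        intro Y hY hYX y
        rw [runs_cons]
        constructor
        · rintro ⟨z, h1, h2⟩
          rw [rewrites_singleton, hX Y hY hYX, Finset.mem_singleton] at h1
          subst h1
          exact h2
        · intro h2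
          refine ⟨[Y], ?_, h2⟩
          rw [rewrites_singleton, hX Y hY hYX]
          simp
      have hXval := exists_val G _ φ w X hXφ hw hwt
      have hDsub : Dom G τ₃ ⊆ Dom G (h :: τ₃) := by
        intro Y hY
        obtain ⟨h1, y, hy⟩ := mem_Dom.1 hY
        by_cases hYX : Y = X
        · subst hYX
          exact mem_Dom.2 ⟨h1, hXval⟩
        · exact mem_Dom.2 ⟨h1, y, (hother Y h1 hYX y).2 hy.1, hy.2⟩
      have hcard : r ^ (Dom G τ₃).card ≤ r ^ (Dom G (h :: τ₃)).card :=
        Nat.pow_le_pow_right hr1 (Finset.card_le_card hDsub)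
      have hcard' : ((r ^ (Dom G τ₃).card : ℕ) : ℤ) ≤ (r ^ (Dom G (h :: τ₃)).card : ℕ) := by
        exact_mod_cast hcard
      intro Y hY y hy
      by_cases hYX : Y = X
      swap
      · obtain ⟨a1, a2, a3⟩ := IH Y hY y ⟨(hother Y hY hYX y).1 hy.1, hy.2⟩
        exact ⟨a1.trans hcard', a2.trans hcard', a3⟩
      subst hYX
      obtain ⟨ρ₁, ρ₂, x1, x2⟩ := exchange G (h :: τ₃) τ₃ Y
        (fun Z hZ hZY z hz => (hother Z hZ hZY z).1 hz) φ hφL w hw hwt
      obtain ⟨w', w1, w2, w3, w4, w5⟩ := x1 y hy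
      have hw'L : w' ∈ L0 := inL (τ₁ ++ h :: τ₃) w' hmem
        ((runs_append _ _ _ _).2 ⟨φ, hφ, w1⟩) w2
      have hysort : y.Pairwise (· ≤ ·) := (L0_sorted hw'L).sublist (w5 hXφ).sublist
      obtain ⟨α, hα1, hα2⟩ := hy.1
      rw [rewrites_singleton] at hα1
      have hαL : ∀ d ∈ α, d ∈ G.letters := fun d hd => G.image_closed h hh Y hY α hα1 d hd
      have hαr : α.length ≤ r := hr3 h hh Y hY α hα1
      have hcount : y.count 1 ≤ B := by
        have := (bound_count G τ₃ (r ^ (Dom G τ₃).card) B IH α hαL y hα2 hy.2 hysort).1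
        refine this.trans (max_le ?_ le_rfl)
        exact Nat.mul_le_mul hαr (hpow τ₃)
      by_cases hex0 : ∃ x0, Val G τ₃ Y x0
      · obtain ⟨x0, hx0⟩ := hex0
        obtain ⟨w0, v1, v2, v3, v4⟩ := x2 x0 hx0
        have hw0L : w0 ∈ L0 := inL (τ₁ ++ τ₃) w0
          (by
            intro g hg
            rcases List.mem_append.1 hg with hg | hg
            · exact hmem g (by simp [hg])
            · exact hmem g (by simp [hg]))
          ((runs_append _ _ _ _).2 ⟨φ, hφ, v1⟩) v2
        have e1 := L0_d1 hw'L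
        have e2 := L0_d2 hw'L
        have f1 := L0_d1 hw0L
        have f2 := L0_d2 hw0L
        have hc : (φ.count Y : ℤ) ≠ 0 := by
          have : 0 < φ.count Y := List.count_pos_iff.2 hXφ
          exact_mod_cast this.ne'
        have g1 : d1 y = d1 x0 := by
          apply mul_left_cancel₀ hc
          linarith
        have g2 : d2 y = d2 x0 := by
          apply mul_left_cancel₀ hc
          linarith
        obtain ⟨a1, a2, a3⟩ := IH Y hY x0 hx0
        rw [g1, g2]
        exact ⟨a1.trans hcard', a2.trans hcard', hcount⟩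
      · have hnew : Y ∉ Dom G τ₃ := fun h1 => hex0 (mem_Dom.1 h1).2
        have hins : insert Y (Dom G τ₃) ⊆ Dom G (h :: τ₃) := by
          intro Z hZ
          rcases Finset.mem_insert.1 hZ with rfl | hZ
          · exact mem_Dom.2 ⟨hY, hXval⟩
          · exact hDsub hZ
        have hcd : (Dom G τ₃).card + 1 ≤ (Dom G (h :: τ₃)).card := by
          rw [← Finset.card_insert_of_notMem hnew]
          exact Finset.card_le_card hins
        have hb := bound_d G τ₃ (r ^ (Dom G τ₃).card)
          (fun Z hZ z hz => ⟨(IH Z hZ z hz).1, (IH Z hZ z hz).2.1⟩) α hαL y hα2 hy.2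
        have hle : (α.length : ℤ) * (r ^ (Dom G τ₃).card : ℕ) ≤
            (r ^ (Dom G (h :: τ₃)).card : ℕ) := by
          have h1 : α.length * r ^ (Dom G τ₃).card ≤ r ^ (Dom G (h :: τ₃)).card := by
            calc α.length * r ^ (Dom G τ₃).card ≤ r * r ^ (Dom G τ₃).card :=
                  Nat.mul_le_mul_right _ hαr
              _ = r ^ ((Dom G τ₃).card + 1) := by rw [pow_succ]; ring
              _ ≤ _ := Nat.pow_le_pow_right hr1 hcd
          exact_mod_cast h1
        exact ⟨hb.1.trans hle, hb.2.trans hle, hcount⟩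
  have P := main τ [] G.start (by simpa using hτ2) (by simpa using hτ1) rfl hτ3
  have hfin := (bound_count G τ (r ^ (Dom G τ).card) B P G.start G.start_mem w hτ3 hwt
    (L0_sorted hwL)).1
  have hfin2 : w.count 1 ≤ B :=
    hfin.trans (max_le (Nat.mul_le_mul hr2 (hpow τ)) le_rfl)
  have hcw : w.count 1 = B + 1 := by
    simp [w, List.count_append, List.count_replicate]
  omega

end Pool.Agent.R938.EL
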