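import Pool.Agent.R938.EL.Basic

/-! Renaming the letters of a system by an injection into the natural numbers. -/

namespace Pool.Agent.R938.EL

open Relation

section Push

variable {α : Type} (e : α → ℕ)

/-- The table on natural numbers obtained by renaming. -/
noncomputable def push (h : α → Finset (List α)) : ℕ → Finset (List ℕ) :=
  Function.extend e (fun c => (h c).image (List.map e)) (fun n => {[n]})

theorem push_apply (he : Function.Injective e) (h : α → Finset (List α)) (c : α) :
    push e h (e c) = (h c).image (List.map e) := he.extend_apply _ _ _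

theorem rewrites_push (he : Function.Injective e) (h : α → Finset (List α)) (x : List α)
    (y' : List ℕ) :
    Rewrites (push e h) (x.map e) y' ↔ ∃ y, y' = y.map e ∧ Rewrites h x y := by
  induction x generalizing y' with
  | nil =>
    constructor
    · intro h1
      exact ⟨[], h1, rfl⟩
    · rintro ⟨y, rfl, h1⟩
      have : y = [] := h1
      subst this
      rfl
  | cons c x ih =>
    simp only [List.map_cons, rewrites_cons, push_apply e he, Finset.mem_image]
    constructor
    · rintro ⟨v, ⟨u, hu, rfl⟩, z, hz, rfl⟩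
      obtain ⟨y, rfl, hy⟩ := (ih z).1 hz
      exact ⟨u ++ y, by simp, u, hu, y, hy, rfl⟩
    · rintro ⟨y, rfl, u, hu, z, hz, rfl⟩
      exact ⟨u.map e, ⟨u, hu, rfl⟩, z.map e, (ih _).2 ⟨z, rfl, hz⟩, by simp⟩

theorem exists_et0l [DecidableEq α] (he : Function.Injective e)
    (L : Finset α) (𝒯 : Set (α → Finset (List α))) (hfin : 𝒯.Finite) (hne : 𝒯.Nonempty)
    (hin : ∀ h ∈ 𝒯, ∀ c ∈ L, (h c).Nonempty)
    (hcl : ∀ h ∈ 𝒯, ∀ c ∈ L, ∀ v ∈ h c, ∀ d ∈ v, d ∈ L)
    (s : List α) (hs : s ≠ []) (hsL : ∀ d ∈ s, d ∈ L) (Tm : Finset α) (hT : Tm ⊆ L)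
    (k : ℕ) (hk : ∀ h ∈ 𝒯, (L.filter (fun c => h c ≠ {[c]})).card ≤ k) :
    ∃ G' : ET0L, G'.Restricted k ∧
      G'.lang = {w | ∃ v : List α, (∀ d ∈ v, d ∈ Tm) ∧
        ReflTransGen (fun a b => ∃ h ∈ 𝒯, Rewrites h a b) s v ∧ w = v.map e} := by
  have hmap : Function.Injective (List.map e) := List.map_injective_iff.2 he
  refine ⟨{ letters := L.image e
            tables := push e '' 𝒯
            tables_finite := hfin.image _
            tables_nonempty := hne.image _
            image_nonempty := ?_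
            image_closed := ?_
            start := s.map e
            start_ne := by simpa using hs
            start_mem := ?_
            terminals := Tm.image e
            terminals_sub := Finset.image_subset_image hT }, ?_, ?_⟩
  · rintro _ ⟨h, hh, rfl⟩ c hc
    obtain ⟨a, ha, rfl⟩ := Finset.mem_image.1 hc
    rw [push_apply e he]
    exact (hin h hh a ha).image _
  · rintro _ ⟨h, hh, rfl⟩ c hc v hv d hd
    obtain ⟨a, ha, rfl⟩ := Finset.mem_image.1 hc
    rw [push_apply e he] at hv
    obtain ⟨u, hu, rfl⟩ := Finset.mem_image.1 hv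
    obtain ⟨b, hb, rfl⟩ := List.mem_map.1 hd
    exact Finset.mem_image_of_mem _ (hcl h hh a ha u hu b hb)
  · intro d hd
    obtain ⟨b, hb, rfl⟩ := List.mem_map.1 hd
    exact Finset.mem_image_of_mem _ (hsL b hb)
  · rintro _ ⟨h, hh, rfl⟩
    refine le_trans ?_ (hk h hh)
    have hsub : (L.image e).filter (fun c => push e h c ≠ {[c]}) ⊆
        (L.filter (fun c => h c ≠ {[c]})).image e := by
      intro n hn
      obtain ⟨hn1, hn2⟩ := Finset.mem_filter.1 hn
      obtain ⟨a, ha, rfl⟩ := Finset.mem_image.1 hn1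
      refine Finset.mem_image_of_mem _ (Finset.mem_filter.2 ⟨ha, ?_⟩)
      intro h3
      apply hn2
      rw [push_apply e he, h3]
      simp
    exact (Finset.card_le_card hsub).trans Finset.card_image_le
  · ext w
    simp only [ET0L.lang, Set.mem_setOf_eq]
    have key : ∀ z : List ℕ, ReflTransGen
        (fun x y => ∃ h ∈ push e '' 𝒯, Rewrites h x y) (s.map e) z ↔
        ∃ v, z = v.map e ∧ ReflTransGen (fun a b => ∃ h ∈ 𝒯, Rewrites h a b) s v := by
      intro z
      constructor
      · intro h1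
        induction h1 with
        | refl => exact ⟨s, rfl, ReflTransGen.refl⟩
        | tail _ h2 ih =>
          obtain ⟨v, rfl, h3⟩ := ih
          obtain ⟨_, ⟨h, hh, rfl⟩, h4⟩ := h2
          obtain ⟨y, rfl, h5⟩ := (rewrites_push e he h v _).1 h4
          exact ⟨y, rfl, h3.tail ⟨h, hh, h5⟩⟩
      · rintro ⟨v, rfl, h1⟩
        induction h1 with
        | refl => exact ReflTransGen.refl
        | tail _ h2 ih =>
          obtain ⟨h, hh, h3⟩ := h2
          exact ih.tail ⟨push e h, ⟨h, hh, rfl⟩, (rewrites_push e he h _ _).2 ⟨_, rfl, h3⟩⟩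
    constructor
    · rintro ⟨h1, h2⟩
      obtain ⟨v, rfl, h3⟩ := (key w).1 h2
      refine ⟨v, ?_, h3, rfl⟩
      intro d hd
      obtain ⟨b, hb, hbe⟩ := Finset.mem_image.1 (h1 (e d) (List.mem_map_of_mem hd))
      rwa [← he hbe]
    · rintro ⟨v, h1, h2, rfl⟩
      refine ⟨?_, (key _).2 ⟨v, rfl, h2⟩⟩
      intro d hd
      obtain ⟨b, hb, rfl⟩ := List.mem_map.1 hd
      exact Finset.mem_image_of_mem _ (h1 b hb)

end Push

end Pool.Agent.R938.EL
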