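import Pool.Agent.R938.EL.Two

/-! Soundness of the construction. -/

namespace Pool.Agent.R938.EL

open Relation Ltr

section Gen

variable {α β : Type}

theorem rewrites_triv (f : α → Finset (List β)) (b : List α) (u : List β)
    (H : ∀ z ∈ b, f z = {[]}) : Rewrites f b u ↔ u = [] := by
  induction b generalizing u with
  | nil => simp
  | cons c b ih =>
    have h1 : f c = {[]} := H c (by simp)
    have h2 : ∀ z ∈ b, f z = {[]} := fun z hz => H z (by simp [hz])
    simp only [rewrites_cons, h1, Finset.mem_singleton]
    constructor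
    · rintro ⟨v, rfl, z, hz, h3⟩
      rw [h3, (ih z h2).1 hz]; rfl
    · rintro rfl
      exact ⟨[], rfl, [], (ih [] h2).2 rfl, rfl⟩

theorem rewrites_map_single (f : α → Finset (List β)) (g : β → α) (v u : List β)
    (H : ∀ i, f (g i) = {[i]}) : Rewrites f (v.map g) u ↔ u = v := by
  induction v generalizing u with
  | nil => simp
  | cons c v ih =>
    simp only [List.map_cons, rewrites_cons, H, Finset.mem_singleton]
    constructor
    · rintro ⟨_, rfl, z, hz, rfl⟩
      rw [(ih z).1 hz]; rfl
    · rintro rfl
      exact ⟨[c], rfl, v, (ih v).2 rfl, rfl⟩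

end Gen

section Sound

variable {G : ET0L} {m : ℕ} {ht : ℕ → ℕ → Finset (List ℕ)}

theorem valQ_inert (q : ℕ) {z : Ltr G.terminals}
    (hz : match z with
      | .ter _ => False
      | .c _ => False
      | .p _ => False
      | _ => True) : valQ G ht q z = {[]} := by
  match q with
  | 0 => cases z <;> simp_all [valQ, val]
  | 1 => cases z <;> simp_all [valQ, val]
  | t + 2 => cases z <;> simp_all [valQ, valA]

theorem valQ_ws (q r : ℕ) : ∀ z ∈ ws m G.terminals r, valQ G ht q z = {[]} := by
  intro z hz
  obtain ⟨k, _, _, rfl⟩ := (mem_ws m).1 hz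
  exact valQ_inert q trivial

theorem valQ_xs (q : ℕ) : ∀ z ∈ xs G.terminals G.letters, valQ G ht q z = {[]} := by
  intro z hz
  obtain ⟨k, _, rfl⟩ := mem_xs.1 hz
  exact valQ_inert q trivial

theorem valQ_ys (q : ℕ) : ∀ z ∈ ys G.terminals G.letters, valQ G ht q z = {[]} := by
  intro z hz
  obtain ⟨k, _, rfl⟩ := mem_ys.1 hz
  exact valQ_inert q trivial

theorem valQ_p (q i : ℕ) : valQ G ht q (Ltr.p i) = {[i]} := by
  match q with
  | 0 => rfl
  | 1 => rfl
  | t + 2 => rfl

/-- How the meaning of a word changes in a step. -/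
theorem val_step {g : Ltr G.terminals} {A : Finset (List (Ltr G.terminals))}
    {s s' : List (Ltr G.terminals)} (f f' : Ltr G.terminals → Finset (List ℕ))
    (hm : mate g ∉ s) (h : Rewrites (tab g A) s s')
    (Hg : ∀ v ∈ A, ∀ w, Rewrites f' v w → w ∈ f g)
    (Ho : ∀ z ∈ s, z ≠ g → ∀ w ∈ f' z, w ∈ f z) {u : List ℕ}
    (h2 : Rewrites f' s' u) : Rewrites f s u := by
  refine rewrites_mono (tab g A) f' f s s' u ?_ h h2
  intro a ha v hv w hw
  by_cases h1 : a = g
  · subst h1
    rw [tab_self] at hv
    exact Hg v hv w hw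
  · have h3 : a ≠ mate g := fun h3 => hm (h3 ▸ ha)
    rw [tab_other h1 h3, Finset.mem_singleton] at hv
    subst hv
    exact Ho a ha h1 w ((rewrites_singleton _ _ _).1 hw)

theorem base_exists (h : ℕ → Finset (List ℕ)) (s : List (Ltr G.terminals))
    (h1 : ∀ i, Ltr.p i ∉ s) (h2 : ∀ a, Ltr.ter a ∉ s) :
    ∃ u₀, Rewrites (val G) s u₀ ∧ ∀ u, Rewrites (valA G h) s u → Rewrites h u₀ u := by
  induction s with
  | nil => exact ⟨[], rfl, fun u hu => hu⟩
  | cons z s ih =>
    obtain ⟨u₀, h3, h4⟩ := ih (fun i hi => h1 i (by simp [hi])) (fun a ha => h2 a (by simp [ha]))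
    have inert : val G z = {[]} → valA G h z = {[]} →
        ∃ u₀, Rewrites (val G) (z :: s) u₀ ∧
          ∀ u, Rewrites (valA G h) (z :: s) u → Rewrites h u₀ u := by
      intro e1 e2
      refine ⟨u₀, ⟨[], by simp [e1], u₀, h3, rfl⟩, ?_⟩
      rintro u ⟨v, hv, z', hz', rfl⟩
      rw [e2, Finset.mem_singleton] at hv
      subst hv
      exact h4 z' hz'
    cases z with
    | ter a => exact absurd (by simp) (h2 a)
    | p i => exact absurd (by simp) (h1 i)
    | c i =>
      refine ⟨i :: u₀, ⟨[i], by simp [val], u₀, h3, rfl⟩, ?_⟩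
      rintro u ⟨v, hv, z', hz', rfl⟩
      exact ⟨v, hv, z', h4 z' hz', rfl⟩
    | x i => exact inert rfl rfl
    | y i => exact inert rfl rfl
    | K i => exact inert rfl rfl
    | w i => exact inert rfl rfl
    | F => exact inert rfl rfl

theorem rule_closed (H1 : ∀ t < m, ht t ∈ G.tables) {g A} (hr : Rule G m ht g A) :
    ∀ v ∈ A, ∀ z ∈ v, z ∈ newLetters G m := by
  intro v hv z hz
  rw [mem_newLetters]
  cases hr with
  | mark t i h1 h2 =>
    obtain ⟨u, hu, rfl⟩ := Finset.mem_image.1 hv
    rcases List.mem_append.1 hz with h3 | h3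
    · obtain ⟨j, hj, rfl⟩ := List.mem_map.1 h3
      exact G.image_closed _ (H1 t h1) i h2 u hu j hj
    · obtain ⟨r, hr, _, rfl⟩ := (mem_ws m).1 h3
      exact hr
  | unp i h2 =>
    rw [Finset.mem_singleton] at hv
    subst hv
    rcases List.mem_cons.1 hz with rfl | h3
    · exact h2
    · obtain ⟨r, hr, _, rfl⟩ := (mem_ws m).1 h3
      exact hr
  | fin a =>
    rw [Finset.mem_singleton] at hv
    subst hv
    rcases List.mem_cons.1 hz with rfl | h3
    · trivial
    · obtain ⟨r, hr, _, rfl⟩ := (mem_ws m).1 h3
      exact hr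
  | ba t h1 =>
    rw [Finset.mem_singleton] at hv
    subst hv
    rcases List.mem_cons.1 hz with rfl | h3
    · show t + 2 < m + 2
      omega
    · obtain ⟨i, hi, rfl⟩ := mem_ys.1 h3
      exact hi
  | ab t h1 =>
    rw [Finset.mem_singleton] at hv
    subst hv
    rcases List.mem_cons.1 hz with rfl | h3
    · show 0 < m + 2
      omega
    · obtain ⟨i, hi, rfl⟩ := mem_xs.1 h3
      exact hi
  | be =>
    rw [Finset.mem_singleton] at hv
    subst hv
    rcases List.mem_cons.1 hz with rfl | h3
    · show 1 < m + 2
      omega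
    · obtain ⟨i, hi, rfl⟩ := mem_ys.1 h3
      exact hi
  | fend =>
    rw [Finset.mem_singleton] at hv
    subst hv
    rcases List.mem_append.1 hz with h3 | h3
    · obtain ⟨i, hi, rfl⟩ := mem_xs.1 h3
      exact hi
    · obtain ⟨i, hi, rfl⟩ := mem_ys.1 h3
      exact hi
  | dx i h2 =>
    rw [Finset.mem_singleton] at hv
    subst hv
    simp at hz
  | dy i h2 =>
    rw [Finset.mem_singleton] at hv
    subst hv
    simp at hz
  | dw q h1 =>
    rw [Finset.mem_singleton] at hv
    subst hv
    simp at hz

theorem closed_step (H1 : ∀ t < m, ht t ∈ G.tables) {g A} (hr : Rule G m ht g A)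
    {s s' : List (Ltr G.terminals)} (hs : ∀ z ∈ s, z ∈ newLetters G m)
    (h : Rewrites (tab g A) s s') : ∀ z ∈ s', z ∈ newLetters G m := by
  intro z hz
  obtain ⟨a, ha, v, hv, hzv⟩ := mem_of_rewrites _ _ _ z h hz
  by_cases h1 : a = g
  · subst h1
    rw [tab_self] at hv
    exact rule_closed H1 hr v hv z hzv
  · by_cases h2 : a = mate g
    · subst h2
      rw [tab_mate hr.act, Finset.mem_singleton] at hv
      subst hv
      have : z = Ltr.F := by simpa using hzv
      subst this
      exact (mem_newLetters G m _).2 trivial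
    · rw [tab_other h1 h2, Finset.mem_singleton] at hv
      subst hv
      have : z = a := by simpa using hzv
      subst this
      exact hs z ha

/-- A generic preservation lemma: the letter `g` is no phase letter, its images contain no phase
letter. -/
theorem invQ_keep {g A} {s s' : List (Ltr G.terminals)} {q : ℕ}
    (hm : mate g ∉ s) (h : Rewrites (tab g A) s s') (hI : InvQ G ht q s)
    (hgK : ∀ r, g ≠ Ltr.K r) (hAK : ∀ v ∈ A, ∀ r, Ltr.K r ∉ v)
    (hAt : q ≠ 1 → ∀ v ∈ A, ∀ a, Ltr.ter a ∉ v)
    (Hg : ∀ v ∈ A, ∀ w, Rewrites (valQ G ht q) v w → w ∈ valQ G ht q g) :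
    InvQ G ht q s' := by
  obtain ⟨i1, i2, i3⟩ := hI
  refine ⟨?_, ?_, ?_⟩
  · intro r
    constructor
    · intro hr
      rcases mem_new hm h hr with ⟨h1, _⟩ | ⟨_, v, hv, h2⟩
      · exact (i1 r).1 h1
      · exact absurd h2 (hAK v hv r)
    · rintro rfl
      have hk : Ltr.K r ∈ s := (i1 r).2 rfl
      exact mem_keep A h hk (fun h1 => hgK r h1.symm) (fun h1 => hm (h1 ▸ hk))
  · intro hq a ha
    rcases mem_new hm h ha with ⟨h1, _⟩ | ⟨_, v, hv, h2⟩
    · exact i2 hq a h1
    · exact hAt hq v hv a h2
  · intro u hu
    exact i3 u (val_step _ _ hm h Hg (fun z _ _ w hw => hw) hu)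

theorem invE_keep {g A} {s s' : List (Ltr G.terminals)}
    (hm : mate g ∉ s) (h : Rewrites (tab g A) s s') (hI : InvE G s)
    (hA : A = {[]}) (hg : val G g = {[]}) :
    InvE G s' := by
  obtain ⟨i1, i2, i3, i4⟩ := hI
  subst hA
  refine ⟨?_, ?_, ?_, ?_⟩
  · intro r hr
    rcases mem_new hm h hr with ⟨h1, _⟩ | ⟨_, v, hv, h2⟩
    · exact i1 r h1
    · rw [Finset.mem_singleton] at hv; subst hv; simp at h2
  · intro r hr
    rcases mem_new hm h hr with ⟨h1, _⟩ | ⟨_, v, hv, h2⟩
    · exact i2 r h1
    · rw [Finset.mem_singleton] at hv; subst hv; simp at h2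
  · intro r hr
    rcases mem_new hm h hr with ⟨h1, _⟩ | ⟨_, v, hv, h2⟩
    · exact i3 r h1
    · rw [Finset.mem_singleton] at hv; subst hv; simp at h2
  · intro u hu
    refine i4 u (val_step _ _ hm h ?_ (fun z _ _ w hw => hw) hu)
    intro v hv w hw
    rw [Finset.mem_singleton] at hv
    subst hv
    have : w = [] := hw
    simp [hg, this]

theorem inv_step (H1 : ∀ t < m, ht t ∈ G.tables) {g A} (hr : Rule G m ht g A)
    {s s' : List (Ltr G.terminals)} (hI : Inv G m ht s)
    (h : Rewrites (tab g A) s s') : Inv G m ht s' := by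
  obtain ⟨hL, hI⟩ := hI
  refine ⟨closed_step H1 hr hL h, ?_⟩
  by_cases hD : Dead s
  · exact Or.inl (dead_step hr.act A hD h)
  by_cases hm : mate g ∈ s
  · exact Or.inl (dead_of_mate hr.act A hm h)
  by_cases hg : g ∈ s
  swap
  · rw [eq_of_not_mem A hg hm h]
    exact hI
  obtain ⟨v₀, hv₀, hv₀'⟩ := exists_image_of_rewrites _ _ _ g h hg
  rw [tab_self] at hv₀
  rcases hI with hI | ⟨q, hq, hI⟩ | hI
  · exact absurd hI hD
  · -- a phase `q`
    -- the blocking of a wrong phase
    have wrong : ∀ r, r ≠ q → (∀ v ∈ A, ∀ z ∈ ws m G.terminals r, z ∈ v) →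
        (∀ k, g ≠ Ltr.K k) → Dead s' := by
      intro r hrq hA hgK
      have hk : Ltr.K q ∈ s := (hI.1 q).2 rfl
      have h1 : Ltr.K q ∈ s' := mem_keep A h hk (fun h1 => hgK q h1.symm)
        (fun h1 => hm (h1 ▸ hk))
      have h2 : Ltr.w q ∈ s' :=
        hv₀' _ (hA v₀ hv₀ _ ((mem_ws m).2 ⟨q, hq, fun h3 => hrq h3.symm, rfl⟩))
      exact ⟨_, h1, h2⟩
    cases hr with
    | mark t i h1 h2 =>
      by_cases hqt : q = t + 2
      · subst hqt
        refine Or.inr (Or.inl ⟨_, hq, invQ_keep hm h hI ?_ ?_ ?_ ?_⟩)
        · intro r; simp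
        · intro v hv r hr
          obtain ⟨u, hu, rfl⟩ := Finset.mem_image.1 hv
          rcases List.mem_append.1 hr with h3 | h3
          · simp at h3
          · obtain ⟨k, _, _, h4⟩ := (mem_ws m).1 h3
            simp at h4
        · intro _ v hv r hr
          obtain ⟨u, hu, rfl⟩ := Finset.mem_image.1 hv
          rcases List.mem_append.1 hr with h3 | h3
          · simp at h3
          · obtain ⟨k, _, _, h4⟩ := (mem_ws m).1 h3
            simp at h4
        · intro v hv w hw
          obtain ⟨u, hu, rfl⟩ := Finset.mem_image.1 hv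
          obtain ⟨y₁, y₂, h3, h4, rfl⟩ := (rewrites_append _ _ _ _).1 hw
          rw [rewrites_triv _ _ _ (valQ_ws _ _)] at h4
          rw [rewrites_map_single _ _ _ _ (fun i => valQ_p _ i)] at h3
          subst h3 h4
          simpa [valQ, valA] using hu
      · refine Or.inl (wrong (t + 2) (fun h3 => hqt h3.symm) ?_ (by intro k; simp))
        intro v hv z hz
        obtain ⟨u, hu, rfl⟩ := Finset.mem_image.1 hv
        exact List.mem_append_right _ hz
    | unp i h2 =>
      by_cases hqt : q = 0
      · subst hqt
        refine Or.inr (Or.inl ⟨_, hq, invQ_keep hm h hI ?_ ?_ ?_ ?_⟩)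
        · intro r; simp
        · intro v hv r hr
          rw [Finset.mem_singleton] at hv
          subst hv
          rcases List.mem_cons.1 hr with h3 | h3
          · simp at h3
          · obtain ⟨k, _, _, h4⟩ := (mem_ws m).1 h3
            simp at h4
        · intro _ v hv r hr
          rw [Finset.mem_singleton] at hv
          subst hv
          rcases List.mem_cons.1 hr with h3 | h3
          · simp at h3
          · obtain ⟨k, _, _, h4⟩ := (mem_ws m).1 h3
            simp at h4
        · intro v hv w hw
          rw [Finset.mem_singleton] at hv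
          subst hv
          obtain ⟨v, hv, z, hz, rfl⟩ := hw
          rw [rewrites_triv _ _ _ (valQ_ws _ _)] at hz
          subst hz
          simpa [valQ, val] using hv
      · refine Or.inl (wrong 0 (fun h3 => hqt h3.symm) ?_ (by intro k; simp))
        intro v hv z hz
        rw [Finset.mem_singleton] at hv
        subst hv
        exact List.mem_cons_of_mem _ hz
    | fin a =>
      by_cases hqt : q = 1
      · subst hqt
        refine Or.inr (Or.inl ⟨_, hq, invQ_keep hm h hI ?_ ?_ ?_ ?_⟩)
        · intro r; simp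
        · intro v hv r hr
          rw [Finset.mem_singleton] at hv
          subst hv
          rcases List.mem_cons.1 hr with h3 | h3
          · simp at h3
          · obtain ⟨k, _, _, h4⟩ := (mem_ws m).1 h3
            simp at h4
        · intro h9
          exact absurd rfl h9
        · intro v hv w hw
          rw [Finset.mem_singleton] at hv
          subst hv
          obtain ⟨v, hv, z, hz, rfl⟩ := hw
          rw [rewrites_triv _ _ _ (valQ_ws _ _)] at hz
          subst hz
          simpa [valQ, val] using hv
      · refine Or.inl (wrong 1 (fun h3 => hqt h3.symm) ?_ (by intro k; simp))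
        intro v hv z hz
        rw [Finset.mem_singleton] at hv
        subst hv
        exact List.mem_cons_of_mem _ hz
    | ba t h1 =>
      have hq0 : q = 0 := ((hI.1 0).1 hg).symm
      subst hq0
      rw [Finset.mem_singleton] at hv₀
      subst hv₀
      by_cases hp : ∃ i, Ltr.p i ∈ s
      · obtain ⟨i, hi⟩ := hp
        have hiL : i ∈ G.letters := by simpa using (mem_newLetters G m _).1 (hL _ hi)
        refine Or.inl ⟨Ltr.p i, mem_keep _ h hi (by simp) (by simp [mate]), ?_⟩
        exact hv₀' _ (List.mem_cons_of_mem _ (mem_ys.2 ⟨i, hiL, rfl⟩))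
      · push Not at hp
        refine Or.inr (Or.inl ⟨t + 2, by omega, ?_, ?_, ?_⟩)
        · intro r
          constructor
          · intro hr
            rcases mem_new hm h hr with ⟨h3, h4⟩ | ⟨_, v, hv, h4⟩
            · exact absurd (by rw [(hI.1 r).1 h3]) h4
            · rw [Finset.mem_singleton] at hv
              subst hv
              rcases List.mem_cons.1 h4 with h5 | h5
              · simpa using h5
              · obtain ⟨k, _, h6⟩ := mem_ys.1 h5
                simp at h6
          · rintro rfl
            exact hv₀' _ (by simp)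
        · intro _ a ha
          rcases mem_new hm h ha with ⟨h3, h4⟩ | ⟨_, v, hv, h4⟩
          · exact hI.2.1 (by simp) a h3
          · rw [Finset.mem_singleton] at hv
            subst hv
            rcases List.mem_cons.1 h4 with h5 | h5
            · simp at h5
            · obtain ⟨k, _, h6⟩ := mem_ys.1 h5
              simp at h6
        · intro u hu
          have h3 : Rewrites (valA G (ht t)) s u := by
            refine val_step _ _ hm h ?_ (fun z _ _ w hw => hw) hu
            intro v hv w hw
            rw [Finset.mem_singleton] at hv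
            subst hv
            have h5 : w = [] := by
              refine (rewrites_triv (valQ G ht (t + 2)) _ _ ?_).1 hw
              intro z hz
              rcases List.mem_cons.1 hz with rfl | h6
              · exact valQ_inert _ trivial
              · exact valQ_ys _ z h6
            simp [h5, valA]
          obtain ⟨u₀, h4, h5⟩ := base_exists (ht t) s hp (hI.2.1 (by simp))
          exact (hI.2.2 u₀ h4).tail ⟨ht t, H1 t h1, h5 u h3⟩
    | ab t h1 =>
      have hq0 : q = t + 2 := ((hI.1 (t + 2)).1 hg).symm
      subst hq0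
      rw [Finset.mem_singleton] at hv₀
      subst hv₀
      by_cases hp : ∃ i, Ltr.c i ∈ s
      · obtain ⟨i, hi⟩ := hp
        have hiL : i ∈ G.letters := by simpa using (mem_newLetters G m _).1 (hL _ hi)
        refine Or.inl ⟨Ltr.c i, mem_keep _ h hi (by simp) (by simp [mate]), ?_⟩
        exact hv₀' _ (List.mem_cons_of_mem _ (mem_xs.2 ⟨i, hiL, rfl⟩))
      · push Not at hp
        refine Or.inr (Or.inl ⟨0, by omega, ?_, ?_, ?_⟩)
        · intro r
          constructor
          · intro hr
            rcases mem_new hm h hr with ⟨h3, h4⟩ | ⟨_, v, hv, h4⟩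
            · exact absurd (by rw [(hI.1 r).1 h3]) h4
            · rw [Finset.mem_singleton] at hv
              subst hv
              rcases List.mem_cons.1 h4 with h5 | h5
              · simpa using h5
              · obtain ⟨k, _, h6⟩ := mem_xs.1 h5
                simp at h6
          · rintro rfl
            exact hv₀' _ (by simp)
        · intro _ a ha
          rcases mem_new hm h ha with ⟨h3, h4⟩ | ⟨_, v, hv, h4⟩
          · exact hI.2.1 (by omega) a h3
          · rw [Finset.mem_singleton] at hv
            subst hv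
            rcases List.mem_cons.1 h4 with h5 | h5
            · simp at h5
            · obtain ⟨k, _, h6⟩ := mem_xs.1 h5
              simp at h6
        · intro u hu
          refine hI.2.2 u (val_step (valQ G ht (t + 2)) (valQ G ht 0) hm h ?_ ?_ hu)
          · intro v hv w hw
            rw [Finset.mem_singleton] at hv
            subst hv
            have h5 : w = [] := by
              refine (rewrites_triv (valQ G ht 0) _ _ ?_).1 hw
              intro z hz
              rcases List.mem_cons.1 hz with rfl | h6
              · exact valQ_inert _ trivial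
              · exact valQ_xs _ z h6
            simp [h5, valQ, valA]
          · intro z hz _ w hw
            cases z <;> simp_all [valQ, val, valA]
    | be =>
      have hq0 : q = 0 := ((hI.1 0).1 hg).symm
      subst hq0
      rw [Finset.mem_singleton] at hv₀
      subst hv₀
      refine Or.inr (Or.inl ⟨1, by omega, ?_, ?_, ?_⟩)
      · intro r
        constructor
        · intro hr
          rcases mem_new hm h hr with ⟨h3, h4⟩ | ⟨_, v, hv, h4⟩
          · exact absurd (by rw [(hI.1 r).1 h3]) h4
          · rw [Finset.mem_singleton] at hv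
            subst hv
            rcases List.mem_cons.1 h4 with h5 | h5
            · simpa using h5
            · obtain ⟨k, _, h6⟩ := mem_ys.1 h5
              simp at h6
        · rintro rfl
          exact hv₀' _ (by simp)
      · intro h9
        exact absurd rfl h9
      · intro u hu
        refine hI.2.2 u (val_step (valQ G ht 0) (valQ G ht 1) hm h ?_ (fun z _ _ w hw => hw) hu)
        intro v hv w hw
        rw [Finset.mem_singleton] at hv
        subst hv
        have h5 : w = [] := by
          refine (rewrites_triv (valQ G ht 1) _ _ ?_).1 hw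
          intro z hz
          rcases List.mem_cons.1 hz with rfl | h6
          · exact valQ_inert _ trivial
          · exact valQ_ys _ z h6
        simp [h5, valQ, val]
    | fend =>
      have hq0 : q = 1 := ((hI.1 1).1 hg).symm
      subst hq0
      rw [Finset.mem_singleton] at hv₀
      subst hv₀
      by_cases hc : ∃ i, Ltr.c i ∈ s
      · obtain ⟨i, hi⟩ := hc
        have hiL : i ∈ G.letters := by simpa using (mem_newLetters G m _).1 (hL _ hi)
        refine Or.inl ⟨Ltr.c i, mem_keep _ h hi (by simp) (by simp [mate]), ?_⟩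
        exact hv₀' _ (List.mem_append_left _ (mem_xs.2 ⟨i, hiL, rfl⟩))
      by_cases hp : ∃ i, Ltr.p i ∈ s
      · obtain ⟨i, hi⟩ := hp
        have hiL : i ∈ G.letters := by simpa using (mem_newLetters G m _).1 (hL _ hi)
        refine Or.inl ⟨Ltr.p i, mem_keep _ h hi (by simp) (by simp [mate]), ?_⟩
        exact hv₀' _ (List.mem_append_right _ (mem_ys.2 ⟨i, hiL, rfl⟩))
      push Not at hc hp
      have hA : ∀ z ∈ xs G.terminals G.letters ++ ys G.terminals G.letters,
          (∃ i, z = Ltr.x i) ∨ (∃ i, z = Ltr.y i) := by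
        intro z hz
        rcases List.mem_append.1 hz with h3 | h3
        · obtain ⟨i, _, rfl⟩ := mem_xs.1 h3
          exact Or.inl ⟨i, rfl⟩
        · obtain ⟨i, _, rfl⟩ := mem_ys.1 h3
          exact Or.inr ⟨i, rfl⟩
      refine Or.inr (Or.inr ⟨?_, ?_, ?_, ?_⟩)
      · intro r hr
        rcases mem_new hm h hr with ⟨h3, h4⟩ | ⟨_, v, hv, h4⟩
        · exact absurd (by rw [(hI.1 r).1 h3]) h4
        · rw [Finset.mem_singleton] at hv
          subst hv
          rcases hA _ h4 with ⟨i, h5⟩ | ⟨i, h5⟩ <;> simp at h5
      · intro r hr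
        rcases mem_new hm h hr with ⟨h3, h4⟩ | ⟨_, v, hv, h4⟩
        · exact hc r h3
        · rw [Finset.mem_singleton] at hv
          subst hv
          rcases hA _ h4 with ⟨i, h5⟩ | ⟨i, h5⟩ <;> simp at h5
      · intro r hr
        rcases mem_new hm h hr with ⟨h3, h4⟩ | ⟨_, v, hv, h4⟩
        · exact hp r h3
        · rw [Finset.mem_singleton] at hv
          subst hv
          rcases hA _ h4 with ⟨i, h5⟩ | ⟨i, h5⟩ <;> simp at h5
      · intro u hu
        refine hI.2.2 u (val_step (valQ G ht 1) (valQ G ht 1) hm h ?_ (fun z _ _ w hw => hw) hu)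
        intro v hv w hw
        rw [Finset.mem_singleton] at hv
        subst hv
        have h5 : w = [] := by
          refine (rewrites_triv (valQ G ht 1) _ _ ?_).1 hw
          intro z hz
          rcases hA z hz with ⟨i, rfl⟩ | ⟨i, rfl⟩
          · exact valQ_inert _ trivial
          · exact valQ_inert _ trivial
        simp [h5, valQ, val]
    | dx i h2 =>
      refine Or.inr (Or.inl ⟨_, hq, invQ_keep hm h hI (by intro r; simp) ?_ ?_ ?_⟩)
      · intro v hv r hr; rw [Finset.mem_singleton] at hv; subst hv; simp at hr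
      · intro _ v hv r hr; rw [Finset.mem_singleton] at hv; subst hv; simp at hr
      · intro v hv w hw
        rw [Finset.mem_singleton] at hv; subst hv
        have h5 : w = [] := hw
        rw [valQ_inert q trivial, h5]; simp
    | dy i h2 =>
      refine Or.inr (Or.inl ⟨_, hq, invQ_keep hm h hI (by intro r; simp) ?_ ?_ ?_⟩)
      · intro v hv r hr; rw [Finset.mem_singleton] at hv; subst hv; simp at hr
      · intro _ v hv r hr; rw [Finset.mem_singleton] at hv; subst hv; simp at hr
      · intro v hv w hw
        rw [Finset.mem_singleton] at hv; subst hv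
        have h5 : w = [] := hw
        rw [valQ_inert q trivial, h5]; simp
    | dw k h1 =>
      refine Or.inr (Or.inl ⟨_, hq, invQ_keep hm h hI (by intro r; simp) ?_ ?_ ?_⟩)
      · intro v hv r hr; rw [Finset.mem_singleton] at hv; subst hv; simp at hr
      · intro _ v hv r hr; rw [Finset.mem_singleton] at hv; subst hv; simp at hr
      · intro v hv w hw
        rw [Finset.mem_singleton] at hv; subst hv
        have h5 : w = [] := hw
        rw [valQ_inert q trivial, h5]; simp
  · -- after the last phase
    cases hr with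
    | mark t i h1 h2 => exact absurd hg (hI.2.1 i)
    | unp i h2 => exact absurd hg (hI.2.2.1 i)
    | fin a => exact absurd hg (hI.2.1 _)
    | ba t h1 => exact absurd hg (hI.1 _)
    | ab t h1 => exact absurd hg (hI.1 _)
    | be => exact absurd hg (hI.1 _)
    | fend => exact absurd hg (hI.1 _)
    | dx i h2 => exact Or.inr (Or.inr (invE_keep hm h hI rfl rfl))
    | dy i h2 => exact Or.inr (Or.inr (invE_keep hm h hI rfl rfl))
    | dw q h1 => exact Or.inr (Or.inr (invE_keep hm h hI rfl rfl))

/-- The start word of the new system. -/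
def newStart (G : ET0L) : List (Ltr G.terminals) := G.start.map Ltr.c ++ [Ltr.K 0]

theorem inv_start : Inv G m ht (newStart G) := by
  refine ⟨?_, Or.inr (Or.inl ⟨0, by omega, ?_, ?_, ?_⟩)⟩
  · intro z hz
    rw [mem_newLetters]
    rcases List.mem_append.1 hz with h3 | h3
    · obtain ⟨i, hi, rfl⟩ := List.mem_map.1 h3
      exact G.start_mem i hi
    · rw [List.mem_singleton] at h3
      subst h3
      show 0 < m + 2
      omega
  · intro r
    simp [newStart]
  · intro _ a ha
    simp [newStart] at ha
  · intro u hu
    obtain ⟨y₁, y₂, h3, h4, rfl⟩ := (rewrites_append _ _ _ _).1 hu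
    have h5 := (rewrites_map_single (valQ G ht 0) Ltr.c _ _ (fun i => rfl)).1 h3
    have h6 := (rewrites_triv (valQ G ht 0) [Ltr.K 0] _
      (by intro z hz; rw [List.mem_singleton] at hz; subst hz; rfl)).1 h4
    subst h5 h6
    rw [List.append_nil]
    exact ReflTransGen.refl

theorem inv_of_derives (H1 : ∀ t < m, ht t ∈ G.tables) (s : List (Ltr G.terminals))
    (h : ReflTransGen (fun a b => ∃ h ∈ newTables G m ht, Rewrites h a b) (newStart G) s) :
    Inv G m ht s := by
  induction h with
  | refl => exact inv_start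
  | tail _ h2 ih =>
    obtain ⟨t, ⟨g, A, hr, rfl⟩, h3⟩ := h2
    exact inv_step H1 hr ih h3

/-- Soundness: a derivable terminal word comes from the language of the given system. -/
theorem sound (H1 : ∀ t < m, ht t ∈ G.tables) (s : List (Ltr G.terminals))
    (hs : ∀ z ∈ s, ∃ a, z = Ltr.ter a)
    (h : ReflTransGen (fun a b => ∃ h ∈ newTables G m ht, Rewrites h a b) (newStart G) s) :
    ∃ u ∈ G.lang, Rewrites (val G) s u := by
  have hI := (inv_of_derives H1 s h).2
  have hv : ∃ u, (∀ d ∈ u, d ∈ G.terminals) ∧ Rewrites (val G) s u := by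
    clear hI h
    induction s with
    | nil => exact ⟨[], by simp, rfl⟩
    | cons z s ih =>
      obtain ⟨u, h1, h2⟩ := ih (fun z hz => hs z (by simp [hz]))
      obtain ⟨a, rfl⟩ := hs z (by simp)
      refine ⟨a.1 :: u, ?_, [a.1], by simp [val], u, h2, rfl⟩
      intro d hd
      rcases List.mem_cons.1 hd with rfl | hd
      · exact a.2
      · exact h1 d hd
  obtain ⟨u, hu1, hu2⟩ := hv
  rcases hI with ⟨g, hg, hg'⟩ | ⟨q, _, hq⟩ | hE
  · obtain ⟨a, rfl⟩ := hs g hg
    obtain ⟨b, hb⟩ := hs _ hg'
    simp [mate] at hb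
  · have hk : Ltr.K q ∈ s := (hq.1 q).2 rfl
    obtain ⟨b, hb⟩ := hs _ hk
    simp at hb
  · exact ⟨u, ⟨hu1, hE.2.2.2 u hu2⟩, hu2⟩

end Sound

end Pool.Agent.R938.EL
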