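import Pool.Agent.R938.EL.Push

/-! Every ET0L language is generated by a 2-restricted ET0L system. -/

namespace Pool.Agent.R938.EL

open Relation

/-- Letters of the new system. -/
inductive Ltr (T : Finset ℕ) : Type
  | ter (a : {a // a ∈ T})
  | c (i : ℕ)
  | p (i : ℕ)
  | x (i : ℕ)
  | y (i : ℕ)
  | K (q : ℕ)
  | w (q : ℕ)
  | F
  deriving DecidableEq

namespace Ltr

variable {T : Finset ℕ}

/-- The letter that blocks, and is blocked by, a given letter. -/
def mate : Ltr T → Ltr T
  | ter _ => F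
  | c i => x i
  | p i => y i
  | x i => c i
  | y i => p i
  | K q => w q
  | w q => K q
  | F => F

/-- Letters that may be rewritten by the rules. -/
def Act : Ltr T → Prop
  | ter _ => False
  | F => False
  | _ => True

theorem mate_mate {g : Ltr T} (hg : Act g) : mate (mate g) = g := by
  cases g <;> simp_all [Act, mate]

theorem act_mate {g : Ltr T} (hg : Act g) : Act (mate g) := by
  cases g <;> simp_all [Act, mate]

theorem mate_ne {g : Ltr T} (hg : Act g) : mate g ≠ g := by
  cases g <;> simp_all [Act, mate]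

/-- The table rewriting `g` by `A` and blocked by `mate g`. -/
def tab (g : Ltr T) (A : Finset (List (Ltr T))) : Ltr T → Finset (List (Ltr T)) :=
  fun s => if s = g then A else if s = mate g then {[F]} else {[s]}

theorem tab_self (g : Ltr T) (A : Finset (List (Ltr T))) : tab g A g = A := by
  simp [tab]

theorem tab_mate {g : Ltr T} (hg : Act g) (A : Finset (List (Ltr T))) :
    tab g A (mate g) = {[F]} := by
  simp [tab, mate_ne hg]

theorem tab_other {g s : Ltr T} (h1 : s ≠ g) (h2 : s ≠ mate g) (A : Finset (List (Ltr T))) :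
    tab g A s = {[s]} := by
  simp [tab, h1, h2]

/-- A word with two mutually blocking letters, or with the letter `F`. -/
def Dead (s : List (Ltr T)) : Prop := ∃ g ∈ s, mate g ∈ s

theorem dead_of_F {s : List (Ltr T)} (h : F ∈ s) : Dead s := ⟨F, h, h⟩

theorem dead_step {g : Ltr T} (hg : Act g) (A : Finset (List (Ltr T))) {s s' : List (Ltr T)}
    (hd : Dead s) (h : Rewrites (tab g A) s s') : Dead s' := by
  have keep : ∀ z ∈ s, z ≠ g → z ≠ mate g → z ∈ s' := by
    intro z hz h1 h2
    obtain ⟨v, hv, hv'⟩ := exists_image_of_rewrites _ _ _ z h hz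
    rw [tab_other h1 h2, Finset.mem_singleton] at hv
    subst hv
    exact hv' z (by simp)
  have blk : mate g ∈ s → F ∈ s' := by
    intro hz
    obtain ⟨v, hv, hv'⟩ := exists_image_of_rewrites _ _ _ _ h hz
    rw [tab_mate hg, Finset.mem_singleton] at hv
    subst hv
    exact hv' F (by simp)
  have hgF : (F : Ltr T) ≠ g := by rintro rfl; exact hg
  have hgF' : (F : Ltr T) ≠ mate g := by
    intro h1
    have := act_mate hg
    rw [← h1] at this
    exact this
  obtain ⟨z, hz, hz'⟩ := hd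
  by_cases hF : F ∈ s
  · exact dead_of_F (keep F hF hgF hgF')
  · have hza : Act z := by
      cases z <;> simp_all [Act, mate]
    by_cases h1 : mate g ∈ s
    · exact dead_of_F (blk h1)
    · have a1 : z ≠ mate g := fun h2 => h1 (h2 ▸ hz)
      have a2 : mate z ≠ mate g := fun h2 => h1 (h2 ▸ hz')
      have a3 : z ≠ g := fun h2 => a2 (by rw [h2])
      have a4 : mate z ≠ g := by
        intro h2
        apply a1
        rw [← h2, mate_mate hza]
      exact ⟨z, keep z hz a3 a1, keep _ hz' a4 a2⟩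

/-- A blocked step gives a dead word. -/
theorem dead_of_mate {g : Ltr T} (hg : Act g) (A : Finset (List (Ltr T))) {s s' : List (Ltr T)}
    (hs : mate g ∈ s) (h : Rewrites (tab g A) s s') : Dead s' := by
  obtain ⟨v, hv, hv'⟩ := exists_image_of_rewrites _ _ _ _ h hs
  rw [tab_mate hg, Finset.mem_singleton] at hv
  subst hv
  exact dead_of_F (hv' F (by simp))

theorem eq_of_not_mem {g : Ltr T} (A : Finset (List (Ltr T))) {s s' : List (Ltr T)}
    (h1 : g ∉ s) (h2 : mate g ∉ s) (h : Rewrites (tab g A) s s') : s' = s := by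
  refine (rewrites_self _ s s' ?_).1 h
  intro z hz
  refine tab_other ?_ ?_ A
  · rintro rfl; exact h1 hz
  · rintro rfl; exact h2 hz

/-- Letters kept by a step. -/
theorem mem_keep {g : Ltr T} (A : Finset (List (Ltr T))) {s s' : List (Ltr T)}
    (h : Rewrites (tab g A) s s') {z : Ltr T} (hz : z ∈ s) (h1 : z ≠ g) (h2 : z ≠ mate g) :
    z ∈ s' := by
  obtain ⟨v, hv, hv'⟩ := exists_image_of_rewrites _ _ _ z h hz
  rw [tab_other h1 h2, Finset.mem_singleton] at hv
  subst hv
  exact hv' z (by simp)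

/-- Letters of the new word. -/
theorem mem_new {g : Ltr T} {A : Finset (List (Ltr T))} {s s' : List (Ltr T)}
    (hm : mate g ∉ s) (h : Rewrites (tab g A) s s') {z : Ltr T} (hz : z ∈ s') :
    (z ∈ s ∧ z ≠ g) ∨ (g ∈ s ∧ ∃ v ∈ A, z ∈ v) := by
  obtain ⟨a, ha, v, hv, hzv⟩ := mem_of_rewrites _ _ _ z h hz
  by_cases h1 : a = g
  · subst h1
    rw [tab_self] at hv
    exact Or.inr ⟨ha, v, hv, hzv⟩
  · have h2 : a ≠ mate g := fun h3 => hm (h3 ▸ ha)
    rw [tab_other h1 h2, Finset.mem_singleton] at hv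
    subst hv
    have : z = a := by simpa using hzv
    subst this
    exact Or.inl ⟨ha, h1⟩

end Ltr

open Ltr

section Construction

variable (G : ET0L) (m : ℕ) (ht : ℕ → ℕ → Finset (List ℕ))

/-- watchers for all phases except `q` -/
def ws (T : Finset ℕ) (q : ℕ) : List (Ltr T) :=
  ((List.range (m + 2)).filter (fun r => r ≠ q)).map Ltr.w

/-- checkers for the unprimed letters -/
noncomputable def xs (T S : Finset ℕ) : List (Ltr T) := S.toList.map Ltr.x

/-- checkers for the primed letters -/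
noncomputable def ys (T S : Finset ℕ) : List (Ltr T) := S.toList.map Ltr.y

theorem mem_ws {T : Finset ℕ} {q : ℕ} {z : Ltr T} :
    z ∈ ws m T q ↔ ∃ r, r < m + 2 ∧ r ≠ q ∧ z = Ltr.w r := by
  simp only [ws, List.mem_map, List.mem_filter, List.mem_range, decide_eq_true_eq]
  constructor
  · rintro ⟨r, ⟨h1, h2⟩, rfl⟩
    exact ⟨r, h1, h2, rfl⟩
  · rintro ⟨r, h1, h2, rfl⟩
    exact ⟨r, ⟨h1, h2⟩, rfl⟩

theorem mem_xs {T S : Finset ℕ} {z : Ltr T} : z ∈ xs T S ↔ ∃ i ∈ S, z = Ltr.x i := by
  simp only [xs, List.mem_map, Finset.mem_toList]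
  constructor
  · rintro ⟨i, h, rfl⟩; exact ⟨i, h, rfl⟩
  · rintro ⟨i, h, rfl⟩; exact ⟨i, h, rfl⟩

theorem mem_ys {T S : Finset ℕ} {z : Ltr T} : z ∈ ys T S ↔ ∃ i ∈ S, z = Ltr.y i := by
  simp only [ys, List.mem_map, Finset.mem_toList]
  constructor
  · rintro ⟨i, h, rfl⟩; exact ⟨i, h, rfl⟩
  · rintro ⟨i, h, rfl⟩; exact ⟨i, h, rfl⟩

/-- The rules of the new system. Phase `0` is the phase of removing primes, phase `1` the final
phase, phase `t + 2` the phase of applying the table `ht t`. -/
inductive Rule : Ltr G.terminals → Finset (List (Ltr G.terminals)) → Prop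
  | mark (t i : ℕ) (h1 : t < m) (h2 : i ∈ G.letters) :
      Rule (Ltr.c i) ((ht t i).image (fun v => v.map Ltr.p ++ ws m G.terminals (t + 2)))
  | unp (i : ℕ) (h2 : i ∈ G.letters) : Rule (Ltr.p i) {Ltr.c i :: ws m G.terminals 0}
  | fin (a : {a // a ∈ G.terminals}) : Rule (Ltr.c a.1) {Ltr.ter a :: ws m G.terminals 1}
  | ba (t : ℕ) (h1 : t < m) : Rule (Ltr.K 0) {Ltr.K (t + 2) :: ys G.terminals G.letters}
  | ab (t : ℕ) (h1 : t < m) : Rule (Ltr.K (t + 2)) {Ltr.K 0 :: xs G.terminals G.letters}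
  | be : Rule (Ltr.K 0) {Ltr.K 1 :: ys G.terminals G.letters}
  | fend : Rule (Ltr.K 1) {xs G.terminals G.letters ++ ys G.terminals G.letters}
  | dx (i : ℕ) (h2 : i ∈ G.letters) : Rule (Ltr.x i) {[]}
  | dy (i : ℕ) (h2 : i ∈ G.letters) : Rule (Ltr.y i) {[]}
  | dw (q : ℕ) (h1 : q < m + 2) : Rule (Ltr.w q) {[]}

variable {G m ht}

theorem Rule.act {g A} (h : Rule G m ht g A) : Act g := by
  cases h <;> simp [Act]

variable (G m ht)

/-- The tables of the new system. -/
def newTables : Set (Ltr G.terminals → Finset (List (Ltr G.terminals))) :=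
  {h | ∃ g A, Rule G m ht g A ∧ h = tab g A}

/-- The letters of the new system. -/
noncomputable def newLetters : Finset (Ltr G.terminals) :=
  (Finset.univ.image Ltr.ter) ∪ G.letters.image Ltr.c ∪ G.letters.image Ltr.p ∪
    G.letters.image Ltr.x ∪ G.letters.image Ltr.y ∪ (Finset.range (m + 2)).image Ltr.K ∪
    (Finset.range (m + 2)).image Ltr.w ∪ {Ltr.F}

theorem mem_newLetters (z : Ltr G.terminals) : z ∈ newLetters G m ↔
    match z with
    | .ter _ => True
    | .c i => i ∈ G.letters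
    | .p i => i ∈ G.letters
    | .x i => i ∈ G.letters
    | .y i => i ∈ G.letters
    | .K q => q < m + 2
    | .w q => q < m + 2
    | .F => True := by
  cases z <;> simp [newLetters]

theorem newTables_finite : (newTables G m ht).Finite := by
  have h0 : newTables G m ht ⊆
      ((fun z : ℕ × ℕ => tab (T := G.terminals) (Ltr.c z.2)
        ((ht z.1 z.2).image (fun v => v.map Ltr.p ++ ws m G.terminals (z.1 + 2)))) ''
          (↑(Finset.range m ×ˢ G.letters) : Set (ℕ × ℕ))) ∪
      ((fun i : ℕ => tab (T := G.terminals) (Ltr.p i) {Ltr.c i :: ws m G.terminals 0}) ''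
        (↑G.letters : Set ℕ)) ∪
      (Set.range (fun a : {a // a ∈ G.terminals} =>
        tab (T := G.terminals) (Ltr.c a.1) {Ltr.ter a :: ws m G.terminals 1})) ∪
      ((fun t : ℕ => tab (T := G.terminals) (Ltr.K 0)
        {Ltr.K (t + 2) :: ys G.terminals G.letters}) '' (↑(Finset.range m) : Set ℕ)) ∪
      ((fun t : ℕ => tab (T := G.terminals) (Ltr.K (t + 2))
        {Ltr.K 0 :: xs G.terminals G.letters}) '' (↑(Finset.range m) : Set ℕ)) ∪
      {tab (Ltr.K 0) {Ltr.K 1 :: ys G.terminals G.letters}} ∪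
      {tab (Ltr.K 1) {xs G.terminals G.letters ++ ys G.terminals G.letters}} ∪
      ((fun i : ℕ => tab (T := G.terminals) (Ltr.x i) {[]}) '' (↑G.letters : Set ℕ)) ∪
      ((fun i : ℕ => tab (T := G.terminals) (Ltr.y i) {[]}) '' (↑G.letters : Set ℕ)) ∪
      ((fun i : ℕ => tab (T := G.terminals) (Ltr.w i) {[]}) ''
        (↑(Finset.range (m + 2)) : Set ℕ)) := by
    rintro h ⟨g, A, hr, rfl⟩
    cases hr with
    | mark t i h1 h2 =>
      refine Or.inl (Or.inl (Or.inl (Or.inl (Or.inl (Or.inl (Or.inl (Or.inl (Or.inl ?_))))))))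
      exact ⟨(t, i), by simp [h1, h2], rfl⟩
    | unp i h2 =>
      refine Or.inl (Or.inl (Or.inl (Or.inl (Or.inl (Or.inl (Or.inl (Or.inl (Or.inr ?_))))))))
      exact ⟨i, h2, rfl⟩
    | fin a =>
      refine Or.inl (Or.inl (Or.inl (Or.inl (Or.inl (Or.inl (Or.inl (Or.inr ?_)))))))
      exact ⟨a, rfl⟩
    | ba t h1 =>
      refine Or.inl (Or.inl (Or.inl (Or.inl (Or.inl (Or.inl (Or.inr ?_))))))
      exact ⟨t, by simp [h1], rfl⟩
    | ab t h1 =>
      refine Or.inl (Or.inl (Or.inl (Or.inl (Or.inl (Or.inr ?_)))))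
      exact ⟨t, by simp [h1], rfl⟩
    | be => exact Or.inl (Or.inl (Or.inl (Or.inl (Or.inr rfl))))
    | fend => exact Or.inl (Or.inl (Or.inl (Or.inr rfl)))
    | dx i h2 => exact Or.inl (Or.inl (Or.inr ⟨i, h2, rfl⟩))
    | dy i h2 => exact Or.inl (Or.inr ⟨i, h2, rfl⟩)
    | dw q h1 => exact Or.inr ⟨q, by simpa using h1, rfl⟩
  refine Set.Finite.subset ?_ h0
  refine Set.Finite.union (Set.Finite.union (Set.Finite.union (Set.Finite.union
    (Set.Finite.union (Set.Finite.union (Set.Finite.union (Set.Finite.union (Set.Finite.union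
      ?_ ?_) ?_) ?_) ?_) ?_) ?_) ?_) ?_) ?_
  · exact (Finset.finite_toSet _).image _
  · exact (Finset.finite_toSet _).image _
  · exact Set.finite_range _
  · exact (Finset.finite_toSet _).image _
  · exact (Finset.finite_toSet _).image _
  · exact Set.finite_singleton _
  · exact Set.finite_singleton _
  · exact (Finset.finite_toSet _).image _
  · exact (Finset.finite_toSet _).image _
  · exact (Finset.finite_toSet _).image _

/-- Meaning of the letters outside the phases `t + 2`. -/
def val : Ltr G.terminals → Finset (List ℕ)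
  | .ter a => {[a.1]}
  | .c i => {[i]}
  | .p i => {[i]}
  | _ => {[]}

/-- Meaning of the letters in the phase `t + 2`. -/
def valA (h : ℕ → Finset (List ℕ)) : Ltr G.terminals → Finset (List ℕ)
  | .ter a => {[a.1]}
  | .c i => h i
  | .p i => {[i]}
  | _ => {[]}

/-- Meaning of the letters in the phase `q`. -/
def valQ : ℕ → Ltr G.terminals → Finset (List ℕ)
  | 0 => val G
  | 1 => val G
  | t + 2 => valA G (ht t)

/-- Reachable words of the given system. -/
def Reach (u : List ℕ) : Prop := ReflTransGen G.Step G.start u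

/-- The invariant in phase `q`. -/
def InvQ (q : ℕ) (s : List (Ltr G.terminals)) : Prop :=
  (∀ r, Ltr.K r ∈ s ↔ r = q) ∧ (q ≠ 1 → ∀ a, Ltr.ter a ∉ s) ∧
    (∀ u, Rewrites (valQ G ht q) s u → Reach G u)

/-- The invariant after the last phase. -/
def InvE (s : List (Ltr G.terminals)) : Prop :=
  (∀ r, Ltr.K r ∉ s) ∧ (∀ i, Ltr.c i ∉ s) ∧ (∀ i, Ltr.p i ∉ s) ∧
    (∀ u, Rewrites (val G) s u → Reach G u)

/-- The invariant of the derivations of the new system. -/
def Inv (s : List (Ltr G.terminals)) : Prop :=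
  (∀ z ∈ s, z ∈ newLetters G m) ∧
    (Dead s ∨ (∃ q, q < m + 2 ∧ InvQ G ht q s) ∨ InvE G s)

end Construction

end Pool.Agent.R938.EL
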